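import Pool.Agent.Q219.ZG.Final

/-!
# Zagier's conjecture for abelian fields: characters
-/

set_option autoImplicit false

namespace Pool.Agent.Q219.ZG

open GonP NumberField

section

variable {T : KTheory} {n : ℕ} {F : Type} [Field F] [NumberField F]

/-- The sum `Σ_g χ(g) reg(σ g) x`. -/
noncomputable def SG (T : KTheory) {F : Type} [Field F] [NumberField F] (σ : F →+* ℂ)
    (χ : (F ≃ₐ[ℚ] F) →* ℂ) (x : T.K F) : ℂ :=
  ∑ g : F ≃ₐ[ℚ] F, χ g * (T.reg (σ.comp (g : F →+* F)) x : ℂ)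

lemma SG_smul (σ : F →+* ℂ) (χ : (F ≃ₐ[ℚ] F) →* ℂ) (q : ℚ) (x : T.K F) :
    SG T σ χ (q • x) = q * SG T σ χ x := by
  unfold SG
  rw [Finset.mul_sum]
  refine Finset.sum_congr rfl fun k _ => ?_
  rw [map_smul, Rat.smul_def]
  push_cast
  ring

lemma chi_ne_zero (χ : (F ≃ₐ[ℚ] F) →* ℂ) (g : F ≃ₐ[ℚ] F) : χ g ≠ 0 := by
  intro h
  have h1 : χ (g * g⁻¹) = 1 := by rw [mul_inv_cancel, map_one]
  rw [map_mul, h, zero_mul] at h1
  exact zero_ne_one h1

/-- the shift -/
lemma SG_shift (hT : T.IsKnown' n) (σ : F →+* ℂ) (χ : (F ≃ₐ[ℚ] F) →* ℂ) (h : F ≃ₐ[ℚ] F)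
    (x : T.K F) : χ h * SG T σ χ (T.map (h : F →+* F) x) = SG T σ χ x := by
  unfold SG
  rw [Finset.mul_sum]
  refine Fintype.sum_equiv (Equiv.mulRight h) _ _ fun g => ?_
  have h1 : T.reg (σ.comp (g : F →+* F)) (T.map (h : F →+* F) x) =
      T.reg (σ.comp ((g * h : F ≃ₐ[ℚ] F) : F →+* F)) x := by
    rw [hT.map_reg]
    rfl
  rw [h1]
  show _ = χ (g * h) * (T.reg (σ.comp ((g * h : F ≃ₐ[ℚ] F) : F →+* F)) x : ℂ)
  rw [map_mul]
  ring

/-- the coordinates -/
noncomputable def coefG (χ : (F ≃ₐ[ℚ] F) →* ℂ) (l : T.K F →ₗ[ℚ] ℚ) (x : T.K F) : ℂ :=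
  ∑ g : F ≃ₐ[ℚ] F, χ g * ((l (T.map (g : F →+* F) x) : ℚ) : ℂ)

lemma SG_eq_sum (hT : T.IsKnown' n) (b : Module.Basis (Idx n F) ℚ (T.K F)) (σ : F →+* ℂ)
    (χ : (F ≃ₐ[ℚ] F) →* ℂ) (x : T.K F) :
    SG T σ χ x = ∑ w, coefG χ (b.coord w) x * (T.reg σ (b w) : ℂ) := by
  unfold SG coefG
  simp only [Finset.sum_mul]
  rw [Finset.sum_comm]
  refine Finset.sum_congr rfl fun k _ => ?_
  rw [← hT.map_reg, reg_eq_sum b, Finset.mul_sum]
  refine Finset.sum_congr rfl fun w _ => ?_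
  ring

lemma exists_aut [IsGalois ℚ F] (σ τ : F →+* ℂ) : ∃ g : F ≃ₐ[ℚ] F, τ = σ.comp (g : F →+* F) := by
  obtain ⟨g, hg⟩ := NumberField.ComplexEmbedding.exists_comp_symm_eq_of_comp_eq (k := ℚ) σ τ
    (Subsingleton.elim _ _)
  exact ⟨g.symm, hg.symm⟩

/-- the coordinates are determined by the sum -/
lemma coefG_rel (hT : T.IsKnown' n) [IsGalois ℚ F] (σ : F →+* ℂ) (χ : (F ≃ₐ[ℚ] F) →* ℂ)
    {x y : T.K F} {r : ℂ} (h : SG T σ χ x = r * SG T σ χ y)
    (l : T.K F →ₗ[ℚ] ℚ) : coefG χ l x = r * coefG χ l y := by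
  obtain ⟨b, hb, -⟩ := hT.borel F
  have h1 : ∀ w, coefG χ (b.coord w) x - r * coefG χ (b.coord w) y = 0 := by
    refine indep b hb _ fun τ => ?_
    obtain ⟨i, rfl⟩ := exists_aut σ τ
    have h2 : ∀ z : T.K F, χ i * ∑ w, coefG χ (b.coord w) z *
        (T.reg (σ.comp (i : F →+* F)) (b w) : ℂ) = SG T σ χ z := by
      intro z
      rw [← SG_eq_sum hT b (σ.comp (i : F →+* F)) χ z]
      unfold SG
      rw [Finset.mul_sum]
      refine Fintype.sum_equiv (Equiv.mulLeft i) _ _ fun g => ?_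
      show _ = χ (i * g) * (T.reg (σ.comp ((i * g : F ≃ₐ[ℚ] F) : F →+* F)) z : ℂ)
      rw [map_mul, mul_assoc]
      rfl
    refine mul_left_cancel₀ (chi_ne_zero χ i) ?_
    rw [mul_zero]
    simp only [sub_mul]
    rw [Finset.sum_sub_distrib, mul_sub, h2 x]
    have h4 : ∑ w, r * coefG χ (b.coord w) y * (T.reg (σ.comp (i : F →+* F)) (b w) : ℂ) =
        r * ∑ w, coefG χ (b.coord w) y * (T.reg (σ.comp (i : F →+* F)) (b w) : ℂ) := by
      rw [Finset.mul_sum]
      exact Finset.sum_congr rfl fun w _ => by ring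
    rw [h4, mul_left_comm, h2 y, h, sub_self]
  have h5 : ∀ z : T.K F, coefG χ l z = ∑ w, ((l (b w) : ℚ) : ℂ) * coefG χ (b.coord w) z := by
    intro z
    unfold coefG
    simp only [Finset.mul_sum]
    rw [Finset.sum_comm]
    refine Finset.sum_congr rfl fun k _ => ?_
    have h6 : l (T.map (k : F →+* F) z) =
        ∑ w, b.coord w (T.map (k : F →+* F) z) * l (b w) := by
      conv_lhs => rw [← b.sum_repr (T.map (k : F →+* F) z)]
      rw [map_sum]
      refine Finset.sum_congr rfl fun w _ => ?_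
      rw [map_smul, smul_eq_mul]
      rfl
    rw [h6]
    push_cast
    rw [Finset.mul_sum]
    exact Finset.sum_congr rfl fun w _ => by ring
  rw [h5 x, h5 y, Finset.mul_sum]
  refine Finset.sum_congr rfl fun w _ => ?_
  rw [sub_eq_zero.1 (h1 w)]
  ring

/-- multiplicity one -/
lemma mult_oneG (hT : T.IsKnown' n) [IsGalois ℚ F] (σ : F →+* ℂ) (χ : (F ≃ₐ[ℚ] F) →* ℂ)
    {W U : Submodule ℚ (T.K F)}
    (hW : ∀ g : F ≃ₐ[ℚ] F, ∀ w ∈ W, T.map (g : F →+* F) w ∈ W)
    (hU : ∀ g : F ≃ₐ[ℚ] F, ∀ u ∈ U, T.map (g : F →+* F) u ∈ U)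
    (hd : W ⊓ U = ⊥) (hs : W ⊔ U = ⊤) {u w : T.K F} (hu : u ∈ U) (hw : w ∈ W)
    (hSw : SG T σ χ w ≠ 0) : SG T σ χ u = 0 := by
  have hc : IsCompl U W := by
    refine ⟨?_, ?_⟩
    · rw [disjoint_iff, inf_comm]
      exact hd
    · rw [codisjoint_iff, sup_comm]
      exact hs
  let π : T.K F →ₗ[ℚ] T.K F := U.subtype ∘ₗ U.projectionOnto W hc
  have hπU : ∀ z ∈ U, π z = z := fun z hz => by
    show ((U.projectionOnto W hc z : U) : T.K F) = z
    rw [Submodule.projectionOnto_apply_left hc ⟨z, hz⟩]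
  have hπW : ∀ z ∈ W, π z = 0 := fun z hz => by
    show ((U.projectionOnto W hc z : U) : T.K F) = 0
    rw [(Submodule.projectionOnto_apply_eq_zero_iff hc).2 hz]
    rfl
  have h1 : ∀ l : T.K F →ₗ[ℚ] ℚ, coefG χ l u = 0 := by
    intro l
    have h2 := coefG_rel hT σ χ (x := u) (y := w)
      (r := SG T σ χ u / SG T σ χ w) (by field_simp) (l ∘ₗ π)
    have h3 : coefG χ (l ∘ₗ π) w = 0 := by
      unfold coefG
      refine Finset.sum_eq_zero fun k _ => ?_
      rw [LinearMap.comp_apply, hπW _ (hW _ _ hw), map_zero]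
      simp
    have h4 : coefG χ (l ∘ₗ π) u = coefG χ l u := by
      unfold coefG
      refine Finset.sum_congr rfl fun k _ => ?_
      rw [LinearMap.comp_apply, hπU _ (hU _ _ hu)]
    rw [h3, mul_zero, h4] at h2
    exact h2
  obtain ⟨b, hb, -⟩ := hT.borel F
  rw [SG_eq_sum hT b]
  exact Finset.sum_eq_zero fun w _ => by rw [h1, zero_mul]

/-- Fourier inversion on a finite abelian group -/
lemma exists_char {G : Type} [CommGroup G] [Fintype G] {f : G → ℂ} (hf : f ≠ 0) :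
    ∃ χ : G →* ℂ, ∑ g, χ g * f g ≠ 0 := by
  by_contra hcon
  have h0 : ∀ ψ : AddChar (Additive G) ℂ, ∑ g, ψ (Additive.ofMul g) * f g = 0 := by
    intro ψ
    by_contra h
    exact hcon ⟨{ toFun := fun g => ψ (Additive.ofMul g)
                  map_one' := ψ.map_zero_eq_one
                  map_mul' := fun a b => ψ.map_add_eq_mul _ _ }, h⟩
  refine hf (funext fun k => ?_)
  let l : (Additive G → ℂ) →ₗ[ℂ] ℂ :=
    { toFun := fun p => ∑ g, p (Additive.ofMul g) * f g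
      map_add' := fun p q => by
        rw [← Finset.sum_add_distrib]
        exact Finset.sum_congr rfl fun g _ => add_mul _ _ _
      map_smul' := fun c p => by
        rw [RingHom.id_apply, smul_eq_mul, Finset.mul_sum]
        exact Finset.sum_congr rfl fun g _ => mul_assoc _ _ _ }
  have hl : l = 0 := by
    refine (AddChar.complexBasis (Additive G)).ext fun ψ => ?_
    rw [AddChar.complexBasis_apply]
    exact h0 ψ
  classical
  have h2 : l (Pi.single (Additive.ofMul k) 1) = f k := by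
    show ∑ g, (Pi.single (Additive.ofMul k) (1 : ℂ) : Additive G → ℂ) (Additive.ofMul g) * f g = f k
    rw [Finset.sum_eq_single k]
    · rw [Pi.single_eq_same, one_mul]
    · intro g _ hg
      rw [Pi.single_eq_of_ne (fun h => hg (Additive.ofMul.injective h)), zero_mul]
    · intro h
      exact absurd (Finset.mem_univ k) h
  rw [← h2, hl]
  rfl

/-- the parity of a character which occurs -/
lemma parity_of_ne (hT : T.IsKnown' n) (hcomm : ∀ a b : F ≃ₐ[ℚ] F, a * b = b * a) {σ : F →+* ℂ}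
    {χ : (F ≃ₐ[ℚ] F) →* ℂ} {u : T.K F} (hu : SG T σ χ u ≠ 0) {c : F ≃ₐ[ℚ] F}
    (hc : σ.comp (c : F →+* F) = conj σ) : χ c = (-1) ^ (n - 1) := by
  have h1 := SG_shift hT σ χ c u
  have h2 : SG T σ χ (T.map (c : F →+* F) u) = (-1) ^ (n - 1) * SG T σ χ u := by
    unfold SG
    rw [Finset.mul_sum]
    refine Finset.sum_congr rfl fun g _ => ?_
    have h3 : (σ.comp (g : F →+* F)).comp (c : F →+* F) = conj (σ.comp (g : F →+* F)) := by
      have h4 : conj (σ.comp (g : F →+* F)) = (conj σ).comp (g : F →+* F) := rfl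
      rw [h4, ← hc]
      refine RingHom.ext fun z => ?_
      exact congrArg σ (DFunLike.congr_fun (hcomm g c) z)
    rw [hT.map_reg, h3, hT.conj_reg]
    push_cast
    ring
  rw [h2] at h1
  have h3 : χ c * (-1) ^ (n - 1) = 1 := by
    refine mul_right_cancel₀ hu ?_
    rw [one_mul, mul_assoc]
    exact h1
  have h4 : ((-1 : ℂ) ^ (n - 1)) * (-1) ^ (n - 1) = 1 := by
    rw [← mul_pow]
    norm_num
  calc χ c = χ c * ((-1) ^ (n - 1) * (-1) ^ (n - 1)) := by rw [h4, mul_one]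
    _ = (-1) ^ (n - 1) := by rw [← mul_assoc, h3, one_mul]

/-- there is an element of `K(F)` whose sum does not vanish -/
lemma exists_SG_of_parity (hT : T.IsKnown' n) (hn0 : 0 < n) [IsGalois ℚ F] (σ : F →+* ℂ)
    (χ : (F ≃ₐ[ℚ] F) →* ℂ)
    (hp : ∀ c : F ≃ₐ[ℚ] F, σ.comp (c : F →+* F) = conj σ → χ c = (-1) ^ (n - 1)) :
    ∃ x : T.K F, SG T σ χ x ≠ 0 := by
  by_contra hcon
  have hz : ∀ x : T.K F, SG T σ χ x = 0 := by
    intro x
    by_contra h
    exact hcon ⟨x, h⟩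
  obtain ⟨c0, hc0⟩ := exists_conj σ
  -- the automorphism of an embedding
  choose e he using exists_aut σ
  have hinj : ∀ a b : F ≃ₐ[ℚ] F, σ.comp (a : F →+* F) = σ.comp (b : F →+* F) → a = b := by
    intro a b hab
    exact AlgEquiv.ext fun x => σ.injective (RingHom.congr_fun hab x)
  obtain ⟨b, hb, -⟩ := hT.borel F
  obtain ⟨c, hc⟩ : ∃ c : Idx n F → ℂ, ∀ v : Idx n F,
      ∑ w, c w * (T.reg v.1.embedding (b w) : ℂ) = (χ (e v.1.embedding))⁻¹ := by
    have h1 : ((Matrix.of fun w v : Idx n F => T.reg v.1.embedding (b w)).map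
        (Complex.ofRealHom)).det ≠ 0 := by
      have h2 := RingHom.map_det Complex.ofRealHom
        (Matrix.of fun w v : Idx n F => T.reg v.1.embedding (b w))
      rw [RingHom.mapMatrix_apply] at h2
      rw [← h2]
      show ((_ : ℝ) : ℂ) ≠ 0
      exact_mod_cast hb
    set M := (Matrix.of fun w v : Idx n F => T.reg v.1.embedding (b w)).map
        (Complex.ofRealHom) with hM
    refine ⟨Matrix.vecMul (fun v => (χ (e v.1.embedding))⁻¹) M⁻¹, fun v => ?_⟩
    have h3 : Matrix.vecMul (Matrix.vecMul (fun v : Idx n F => (χ (e v.1.embedding))⁻¹) M⁻¹) M =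
        fun v : Idx n F => (χ (e v.1.embedding))⁻¹ := by
      rw [Matrix.vecMul_vecMul, Matrix.nonsing_inv_mul _ (isUnit_iff_ne_zero.2 h1), Matrix.vecMul_one]
    exact congrFun h3 v
  -- the values at all embeddings
  have hval : ∀ τ : F →+* ℂ, ∑ w, c w * (T.reg τ (b w) : ℂ) = (χ (e τ))⁻¹ := by
    intro τ
    have hidx : Odd n ∨ (InfinitePlace.mk τ).IsComplex := by
      rcases Nat.even_or_odd n with hn | hn
      · right
        rw [InfinitePlace.isComplex_mk_iff]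
        intro hreal
        have h1 : conj τ = τ := hreal
        have h2 : σ.comp ((c0 * e τ : F ≃ₐ[ℚ] F) : F →+* F) = σ.comp ((e τ : F ≃ₐ[ℚ] F) : F →+* F) :=
          calc σ.comp ((c0 * e τ : F ≃ₐ[ℚ] F) : F →+* F)
              = (σ.comp (c0 : F →+* F)).comp ((e τ : F ≃ₐ[ℚ] F) : F →+* F) := rfl
            _ = (conj σ).comp ((e τ : F ≃ₐ[ℚ] F) : F →+* F) := by rw [hc0]
            _ = conj (σ.comp ((e τ : F ≃ₐ[ℚ] F) : F →+* F)) := rfl
            _ = conj τ := by rw [← he τ]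
            _ = τ := h1
            _ = σ.comp ((e τ : F ≃ₐ[ℚ] F) : F →+* F) := he τ
        have h3 := hinj _ _ h2
        have h4 : c0 = 1 := by
          have h5 : c0 * e τ = 1 * e τ := by rw [h3, one_mul]
          exact mul_right_cancel h5
        have h5 := hp c0 hc0
        rw [h4, map_one, (Nat.Even.sub_odd hn0 hn odd_one).neg_one_pow] at h5
        norm_num at h5
      · exact Or.inl hn
    have h3 := hc ⟨InfinitePlace.mk τ, hidx⟩
    rcases InfinitePlace.embedding_mk_eq τ with h | h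
    · simp only [h] at h3
      exact h3
    · have h' : (InfinitePlace.mk τ).embedding = conj τ := h
      simp only [h'] at h3
      have h4 : ∀ w, (T.reg (conj τ) (b w) : ℂ) = (-1) ^ (n - 1) * (T.reg τ (b w) : ℂ) := by
        intro w
        rw [hT.conj_reg]
        push_cast
        ring
      simp only [h4] at h3
      have h7 : e (conj τ) = c0 * e τ := by
        refine hinj _ _ ?_
        rw [← he (conj τ)]
        conv_lhs => rw [he τ]
        show (conj σ).comp ((e τ : F ≃ₐ[ℚ] F) : F →+* F) = _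
        rw [← hc0]
        rfl
      rw [h7, map_mul, hp c0 hc0, mul_inv] at h3
      have h8 : ((-1 : ℂ) ^ (n - 1)) * (-1) ^ (n - 1) = 1 := by
        rw [← mul_pow]
        norm_num
      have h9 : ((-1 : ℂ) ^ (n - 1))⁻¹ = (-1) ^ (n - 1) := inv_eq_of_mul_eq_one_left h8
      rw [h9] at h3
      have h10 : ∑ w, c w * ((-1) ^ (n - 1) * (T.reg τ (b w) : ℂ)) =
          (-1) ^ (n - 1) * ∑ w, c w * (T.reg τ (b w) : ℂ) := by
        rw [Finset.mul_sum]
        exact Finset.sum_congr rfl fun w _ => by ring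
      rw [h10] at h3
      have h11 : ((-1 : ℂ) ^ (n - 1)) ≠ 0 := pow_ne_zero _ (by norm_num)
      exact mul_left_cancel₀ h11 h3
  have h1 : ∑ w, c w * SG T σ χ (b w) = (Fintype.card (F ≃ₐ[ℚ] F) : ℂ) := by
    unfold SG
    simp only [Finset.mul_sum]
    rw [Finset.sum_comm]
    have h2 : ∀ g ∈ (Finset.univ : Finset (F ≃ₐ[ℚ] F)),
        ∑ w, c w * (χ g * (T.reg (σ.comp (g : F →+* F)) (b w) : ℂ)) = 1 := by
      intro g _
      have h3 := hval (σ.comp (g : F →+* F))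
      have h4 : e (σ.comp (g : F →+* F)) = g := hinj _ _ (he (σ.comp (g : F →+* F))).symm
      rw [h4] at h3
      calc ∑ w, c w * (χ g * (T.reg (σ.comp (g : F →+* F)) (b w) : ℂ))
          = χ g * ∑ w, c w * (T.reg (σ.comp (g : F →+* F)) (b w) : ℂ) := by
            rw [Finset.mul_sum]
            exact Finset.sum_congr rfl fun w _ => by ring
        _ = 1 := by rw [h3, mul_inv_cancel₀ (chi_ne_zero χ g)]
    rw [Finset.sum_congr rfl h2, Finset.sum_const, Finset.card_univ, nsmul_eq_mul, mul_one]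
  rw [Finset.sum_eq_zero fun w _ => by rw [hz, mul_zero]] at h1
  exact absurd h1.symm (by exact_mod_cast Fintype.card_ne_zero)

lemma groupSum_eq {x : T.K F} {α : ZP F} (σ : F →+* ℂ) (χ : (F ≃ₐ[ℚ] F) →* ℂ)
    (hx : ∀ τ : F →+* ℂ, T.reg τ x = value n τ α) : groupSum n σ χ α = SG T σ χ x := by
  unfold groupSum SG
  refine Finset.sum_congr rfl fun k _ => ?_
  rw [hx]

/-- abelian fields -/
lemma abelian_field_iff (hT : T.IsKnown' n) (hn0 : 0 < n) (hF : IsAbelianGalois ℚ F) (σ : F →+* ℂ) :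
    Zagier n F ↔ ∀ χ : (F ≃ₐ[ℚ] F) →* ℂ,
      (∀ c : F ≃ₐ[ℚ] F, σ.comp (c : F →+* F) = conj σ → χ c = (-1) ^ (n - 1)) →
        ∃ α ∈ Ker n F, groupSum n σ χ α ≠ 0 := by
  have hG : IsGalois ℚ F := hF.toIsGalois
  have hcomm : ∀ a b : F ≃ₐ[ℚ] F, a * b = b * a := fun a b => hF.is_comm.comm a b
  constructor
  · intro hz χ hp
    obtain ⟨x, hx⟩ := exists_SG_of_parity hT hn0 σ χ hp
    obtain ⟨N, hN, α, hα, h⟩ := (zagier_iff hT F).1 hz x
    refine ⟨α, hα, ?_⟩
    rw [groupSum_eq σ χ h, SG_smul]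
    exact mul_ne_zero (by exact_mod_cast hN) hx
  · intro h
    rw [zagier_iff hT]
    obtain ⟨U, hs, h1, h2⟩ := exists_compl (act hT F) (W := polySpace T n F)
      fun g w hw => map_isPoly hT _ hw
    have h3 : U = ⊥ := by
      rw [Submodule.eq_bot_iff]
      intro u hu
      by_contra hu0
      have h4 : ∃ g : F ≃ₐ[ℚ] F, T.reg (σ.comp (g : F →+* F)) u ≠ 0 := by
        by_contra hcon
        refine hu0 (hT.inj_reg u fun τ => ?_)
        obtain ⟨g, rfl⟩ := exists_aut σ τ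
        by_contra h
        exact hcon ⟨g, h⟩
      obtain ⟨g, hg⟩ := h4
      let _ : CommGroup (F ≃ₐ[ℚ] F) := { (inferInstance : Group (F ≃ₐ[ℚ] F)) with mul_comm := hcomm }
      obtain ⟨χ, hχ⟩ := exists_char (G := F ≃ₐ[ℚ] F)
        (f := fun g => (T.reg (σ.comp (g : F →+* F)) u : ℂ)) (fun h => hg
          (Complex.ofReal_eq_zero.1 (congrFun h g)))
      have hSu : SG T σ χ u ≠ 0 := hχ
      obtain ⟨α, hα, hs'⟩ := h χ fun c hc => parity_of_ne hT hcomm hSu hc
      obtain ⟨x, hx⟩ := hT.polylog α hα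
      rw [groupSum_eq σ χ hx] at hs'
      refine hSu (mult_oneG hT σ χ (W := polySpace T n F) (U := U) (fun g w hw => map_isPoly hT _ hw)
        hs h1 h2 hu (w := x) ?_ hs')
      refine ⟨1, one_ne_zero, α, hα, fun τ => ?_⟩
      rw [Int.cast_one, one_smul, hx]
    rw [h3, sup_bot_eq] at h2
    intro x
    have h6 : x ∈ polySpace T n F := by
      rw [h2]
      exact Submodule.mem_top
    exact h6

end

end Pool.Agent.Q219.ZG
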