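import Pool.Agent.Q219.ZG.Pp

/-!
# Zagier's conjecture for abelian fields: one character for each kernel
-/

set_option autoImplicit false

namespace Pool.Agent.Q219.ZG

open GonP NumberField

section

variable {T : KTheory} {n : ℕ} {F : Type} [Field F] [NumberField F]

/-- characters with the same kernel -/
lemma exists_exponents {G : Type} [Group G] [Finite G] {χ χ' : G →* ℂ}
    (h : ∀ g, χ' g = 1 ↔ χ g = 1) :
    ∃ (d : ℕ) (ζ ζ' : ℂ) (e : G → ℕ), 0 < d ∧ IsPrimitiveRoot ζ d ∧ IsPrimitiveRoot ζ' d ∧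
      ∀ g, χ g = ζ ^ e g ∧ χ' g = ζ' ^ e g := by
  have hfin : Finite χ.toHomUnits.range := Set.finite_range _
  obtain ⟨⟨u, γ, hu⟩, hgen⟩ := (inferInstance : IsCyclic χ.toHomUnits.range).exists_generator
  have hpow : ∀ g, ∃ k : ℕ, χ g = χ γ ^ k := by
    intro g
    have h1 := hgen ⟨χ.toHomUnits g, g, rfl⟩
    obtain ⟨k, hk⟩ := (mem_powers_iff_mem_zpowers.2 h1)
    refine ⟨k, ?_⟩
    have h2 : u ^ k = χ.toHomUnits g := congrArg Subtype.val hk
    rw [← hu, ← map_pow] at h2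
    have h3 := congrArg Units.val h2
    rw [MonoidHom.coe_toHomUnits, MonoidHom.coe_toHomUnits, map_pow] at h3
    exact h3.symm
  choose e he using hpow
  have hd : ∀ j : ℕ, χ' γ ^ j = 1 ↔ χ γ ^ j = 1 := by
    intro j
    rw [← map_pow, ← map_pow]
    exact h _
  refine ⟨orderOf (χ γ), χ γ, χ' γ, e, ?_, IsPrimitiveRoot.orderOf _, ?_, fun g => ⟨he g, ?_⟩⟩
  · rw [orderOf_pos_iff, isOfFinOrder_iff_pow_eq_one]
    exact ⟨orderOf γ, orderOf_pos γ, by rw [← map_pow, pow_orderOf_eq_one, map_one]⟩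
  · have h1 : orderOf (χ' γ) = orderOf (χ γ) := by
      refine Nat.dvd_antisymm ?_ ?_
      · rw [orderOf_dvd_iff_pow_eq_one, hd]
        exact pow_orderOf_eq_one _
      · rw [orderOf_dvd_iff_pow_eq_one, ← hd]
        exact pow_orderOf_eq_one _
    rw [← h1]
    exact IsPrimitiveRoot.orderOf _
  · have h1 : χ' (g * (γ ^ e g)⁻¹) = 1 := by
      rw [h, map_mul]
      have h2 : χ ((γ ^ e g)⁻¹) * χ (γ ^ e g) = 1 := by rw [← map_mul, inv_mul_cancel, map_one]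
      have h3 : χ g = χ (γ ^ e g) := by rw [he g, map_pow]
      rw [h3, mul_comm]
      exact h2
    calc χ' g = χ' (g * (γ ^ e g)⁻¹ * γ ^ e g) := by rw [inv_mul_cancel_right]
      _ = χ' γ ^ e g := by rw [map_mul, h1, one_mul, map_pow]

/-- characters with the same kernel: the sums -/
lemma SG_conj (hT : T.IsKnown' n) [IsGalois ℚ F] (σ : F →+* ℂ) {χ χ' : (F ≃ₐ[ℚ] F) →* ℂ}
    (hk : ∀ g, χ' g = 1 ↔ χ g = 1) {x : T.K F} (h : SG T σ χ x = 0) : SG T σ χ' x = 0 := by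
  obtain ⟨d, ζ, ζ', e, hd, hζ, hζ', he⟩ := exists_exponents hk
  obtain ⟨b, hb, -⟩ := hT.borel F
  have h1 : ∀ w, coefG χ (b.coord w) x = 0 := fun w => by
    have := coefG_rel hT σ χ (x := x) (y := 0) (r := 0) (by rw [h, zero_mul]) (b.coord w)
    rwa [zero_mul] at this
  have h2 : ∀ w, coefG χ' (b.coord w) x = 0 := by
    intro w
    let P : Polynomial ℚ := ∑ g : F ≃ₐ[ℚ] F,
      Polynomial.C (b.coord w (T.map (g : F →+* F) x)) * Polynomial.X ^ e g
    have h3 : ∀ (z : ℂ) (ψ : (F ≃ₐ[ℚ] F) →* ℂ), (∀ g, ψ g = z ^ e g) →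
        Polynomial.aeval z P = coefG ψ (b.coord w) x := by
      intro z ψ hψ
      simp only [P, map_sum, map_mul, Polynomial.aeval_C, map_pow, Polynomial.aeval_X]
      unfold coefG
      refine Finset.sum_congr rfl fun g _ => ?_
      rw [hψ, mul_comm]
      rfl
    have h4 : Polynomial.cyclotomic d ℚ ∣ P := by
      rw [Polynomial.cyclotomic_eq_minpoly_rat hζ hd]
      exact minpoly.dvd ℚ ζ (by rw [h3 ζ χ fun g => (he g).1]; exact h1 w)
    have h5 : Polynomial.aeval ζ' (Polynomial.cyclotomic d ℚ) = 0 := by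
      rw [Polynomial.cyclotomic_eq_minpoly_rat hζ' hd]
      exact minpoly.aeval ℚ ζ'
    obtain ⟨Q, hQ⟩ := h4
    rw [← h3 ζ' χ' fun g => (he g).2, hQ, map_mul, h5, zero_mul]
  rw [SG_eq_sum hT b]
  exact Finset.sum_eq_zero fun w _ => by rw [h2, zero_mul]

/-- abelian fields: one character for each kernel -/
lemma abelian_field_iff' (hT : T.IsKnown' n) (hn0 : 0 < n) (hF : IsAbelianGalois ℚ F)
    (σ : F →+* ℂ) :
    Zagier n F ↔ ∀ χ : (F ≃ₐ[ℚ] F) →* ℂ,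
      (∀ c : F ≃ₐ[ℚ] F, σ.comp (c : F →+* F) = conj σ → χ c = (-1) ^ (n - 1)) →
        ∃ χ' : (F ≃ₐ[ℚ] F) →* ℂ, (∀ g, χ' g = 1 ↔ χ g = 1) ∧
          ∃ α ∈ Ker n F, groupSum n σ χ' α ≠ 0 := by
  have hG : IsGalois ℚ F := hF.toIsGalois
  rw [abelian_field_iff hT hn0 hF σ]
  refine forall_congr' fun χ => imp_congr_right fun hp => ⟨fun h => ⟨χ, fun g => Iff.rfl, h⟩, ?_⟩
  rintro ⟨χ', hk, α, hα, hs⟩
  obtain ⟨x, hx⟩ := hT.polylog α hα
  refine ⟨α, hα, fun h0 => hs ?_⟩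
  rw [groupSum_eq σ χ hx] at h0
  rw [groupSum_eq σ χ' hx]
  exact SG_conj hT σ hk h0

end

end Pool.Agent.Q219.ZG
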