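import Pool.Agent.Q219.ZG.Red

/-!
# Zagier's conjecture for cyclic fields: one element suffices
-/

set_option autoImplicit false

namespace Pool.Agent.Q219.ZG

open GonP NumberField

section

variable {T : KTheory} {n : ℕ}

/-- The sum `Σ_(k < m) ω^k reg(σ γ^k) x`. -/
noncomputable def S (T : KTheory) {F : Type} [Field F] [NumberField F] (m : ℕ) (σ : F →+* ℂ)
    (γ : F ≃ₐ[ℚ] F) (ω : ℂ) (x : T.K F) : ℂ :=
  ∑ k ∈ Finset.range m, ω ^ k * (T.reg (σ.comp ((γ ^ k : F ≃ₐ[ℚ] F) : F →+* F)) x : ℂ)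

variable {F : Type} [Field F] [NumberField F]

lemma S_add (m : ℕ) (σ : F →+* ℂ) (γ : F ≃ₐ[ℚ] F) (ω : ℂ) (x y : T.K F) :
    S T m σ γ ω (x + y) = S T m σ γ ω x + S T m σ γ ω y := by
  unfold S
  rw [← Finset.sum_add_distrib]
  refine Finset.sum_congr rfl fun k _ => ?_
  rw [map_add]
  push_cast
  ring

lemma S_zero (m : ℕ) (σ : F →+* ℂ) (γ : F ≃ₐ[ℚ] F) (ω : ℂ) :
    S T m σ γ ω (0 : T.K F) = 0 := by
  unfold S
  refine Finset.sum_eq_zero fun k _ => ?_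
  rw [map_zero]
  simp

lemma S_smul (m : ℕ) (σ : F →+* ℂ) (γ : F ≃ₐ[ℚ] F) (ω : ℂ) (q : ℚ) (x : T.K F) :
    S T m σ γ ω (q • x) = q * S T m σ γ ω x := by
  unfold S
  rw [Finset.mul_sum]
  refine Finset.sum_congr rfl fun k _ => ?_
  rw [map_smul, Rat.smul_def]
  push_cast
  ring

lemma S_sum (m : ℕ) (σ : F →+* ℂ) (γ : F ≃ₐ[ℚ] F) (ω : ℂ) {ι : Type} (s : Finset ι)
    (x : ι → T.K F) : S T m σ γ ω (∑ i ∈ s, x i) = ∑ i ∈ s, S T m σ γ ω (x i) := by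
  classical
  induction s using Finset.induction_on with
  | empty => rw [Finset.sum_empty, Finset.sum_empty, S_zero]
  | insert a s ha ih => rw [Finset.sum_insert ha, Finset.sum_insert ha, S_add, ih]

/-- the shift -/
lemma S_shift (hT : T.IsKnown' n) {m : ℕ} (σ : F →+* ℂ) {γ : F ≃ₐ[ℚ] F} (hγ : γ ^ m = 1) {ω : ℂ}
    (hω : ω ^ m = 1) (x : T.K F) :
    ω * S T m σ γ ω (T.map (γ : F →+* F) x) = S T m σ γ ω x := by
  have h0 : ∀ k : ℕ, T.reg (σ.comp ((γ ^ k : F ≃ₐ[ℚ] F) : F →+* F)) (T.map (γ : F →+* F) x) =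
      T.reg (σ.comp ((γ ^ (k + 1) : F ≃ₐ[ℚ] F) : F →+* F)) x := by
    intro k
    rw [hT.map_reg]
    rfl
  unfold S
  rw [Finset.mul_sum]
  have h1 : ∀ k ∈ Finset.range m, ω * (ω ^ k *
      (T.reg (σ.comp ((γ ^ k : F ≃ₐ[ℚ] F) : F →+* F)) (T.map (γ : F →+* F) x) : ℂ)) =
      ω ^ (k + 1) * (T.reg (σ.comp ((γ ^ (k + 1) : F ≃ₐ[ℚ] F) : F →+* F)) x : ℂ) := by
    intro k _
    rw [h0]
    ring
  rw [Finset.sum_congr rfl h1]
  have h2 := Finset.sum_range_succ' (fun k => ω ^ k *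
    (T.reg (σ.comp ((γ ^ k : F ≃ₐ[ℚ] F) : F →+* F)) x : ℂ)) m
  have h3 := Finset.sum_range_succ (fun k => ω ^ k *
    (T.reg (σ.comp ((γ ^ k : F ≃ₐ[ℚ] F) : F →+* F)) x : ℂ)) m
  rw [h2] at h3
  rw [hω, hγ] at h3
  rw [pow_zero, pow_zero] at h3
  exact add_right_cancel h3

lemma map_pow_succ (hT : T.IsKnown' n) (γ : F ≃ₐ[ℚ] F) (i : ℕ) (x : T.K F) :
    T.map ((γ ^ (i + 1) : F ≃ₐ[ℚ] F) : F →+* F) x =
      T.map (γ : F →+* F) (T.map ((γ ^ i : F ≃ₐ[ℚ] F) : F →+* F) x) := by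
  rw [pow_succ', map_mul' hT]

lemma S_shift_pow (hT : T.IsKnown' n) {m : ℕ} (σ : F →+* ℂ) {γ : F ≃ₐ[ℚ] F} (hγ : γ ^ m = 1) {ω : ℂ}
    (hω : ω ^ m = 1) (x : T.K F) (i : ℕ) :
    ω ^ i * S T m σ γ ω (T.map ((γ ^ i : F ≃ₐ[ℚ] F) : F →+* F) x) = S T m σ γ ω x := by
  induction i with
  | zero => rw [pow_zero, pow_zero, one_mul, map_one' hT]
  | succ i ih => rw [map_pow_succ hT, pow_succ, mul_assoc, S_shift hT σ hγ hω, ih]

/-- the regulators of a basis are linearly independent over `ℂ` -/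
lemma indep (b : Module.Basis (Idx n F) ℚ (T.K F))
    (hb : (determinant fun w v => T.reg v.1.embedding (b w)) ≠ 0) (c : Idx n F → ℂ)
    (hc : ∀ τ : F →+* ℂ, ∑ w, c w * (T.reg τ (b w) : ℂ) = 0) (w : Idx n F) : c w = 0 := by
  have h1 : ((Matrix.of fun w v : Idx n F => T.reg v.1.embedding (b w)).map (Complex.ofRealHom)).det ≠ 0 := by
    have h2 := RingHom.map_det Complex.ofRealHom (Matrix.of fun w v : Idx n F => T.reg v.1.embedding (b w))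
    rw [RingHom.mapMatrix_apply] at h2
    rw [← h2]
    show ((_ : ℝ) : ℂ) ≠ 0
    exact_mod_cast hb
  have h3 : c = 0 := by
    refine Matrix.eq_zero_of_vecMul_eq_zero h1 (funext fun v => ?_)
    exact hc v.1.embedding
  rw [h3]
  rfl

/-- the coordinates of `Σ ω^k γ^k x` -/
noncomputable def coef (m : ℕ) (γ : F ≃ₐ[ℚ] F) (ω : ℂ) (l : T.K F →ₗ[ℚ] ℚ) (x : T.K F) : ℂ :=
  ∑ k ∈ Finset.range m, ω ^ k * ((l (T.map ((γ ^ k : F ≃ₐ[ℚ] F) : F →+* F) x) : ℚ) : ℂ)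

lemma reg_eq_sum (b : Module.Basis (Idx n F) ℚ (T.K F)) (τ : F →+* ℂ) (x : T.K F) :
    (T.reg τ x : ℂ) = ∑ w, ((b.coord w x : ℚ) : ℂ) * (T.reg τ (b w) : ℂ) := by
  conv_lhs => rw [← b.sum_repr x]
  rw [map_sum]
  push_cast
  refine Finset.sum_congr rfl fun w _ => ?_
  rw [map_smul, Rat.smul_def]
  push_cast
  rfl

lemma S_eq_sum (hT : T.IsKnown' n) (b : Module.Basis (Idx n F) ℚ (T.K F)) (m : ℕ) (σ : F →+* ℂ)
    (γ : F ≃ₐ[ℚ] F) (ω : ℂ) (x : T.K F) :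
    S T m σ γ ω x = ∑ w, coef m γ ω (b.coord w) x * (T.reg σ (b w) : ℂ) := by
  unfold S coef
  simp only [Finset.sum_mul]
  rw [Finset.sum_comm]
  refine Finset.sum_congr rfl fun k _ => ?_
  rw [← hT.map_reg, reg_eq_sum b, Finset.mul_sum]
  refine Finset.sum_congr rfl fun w _ => ?_
  ring

/-- the coordinates are determined by the sum -/
lemma coef_rel (hT : T.IsKnown' n) {m : ℕ} (σ : F →+* ℂ) {γ : F ≃ₐ[ℚ] F} (hγ : γ ^ m = 1)
    (hg : ∀ τ : F →+* ℂ, ∃ i : ℕ, τ = σ.comp ((γ ^ i : F ≃ₐ[ℚ] F) : F →+* F)) {ω : ℂ}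
    (hω : ω ^ m = 1) (hω0 : ω ≠ 0) {x y : T.K F} {r : ℂ} (h : S T m σ γ ω x = r * S T m σ γ ω y)
    (l : T.K F →ₗ[ℚ] ℚ) : coef m γ ω l x = r * coef m γ ω l y := by
  obtain ⟨b, hb, -⟩ := hT.borel F
  have h1 : ∀ w, coef m γ ω (b.coord w) x - r * coef m γ ω (b.coord w) y = 0 := by
    refine indep b hb _ fun τ => ?_
    obtain ⟨i, rfl⟩ := hg τ
    have h2 : ∀ z : T.K F, ∑ w, coef m γ ω (b.coord w) z *
        (T.reg (σ.comp ((γ ^ i : F ≃ₐ[ℚ] F) : F →+* F)) (b w) : ℂ) =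
        S T m σ γ ω (T.map ((γ ^ i : F ≃ₐ[ℚ] F) : F →+* F) z) := by
      intro z
      rw [← S_eq_sum hT b m (σ.comp ((γ ^ i : F ≃ₐ[ℚ] F) : F →+* F)) γ ω z]
      unfold S
      refine Finset.sum_congr rfl fun k _ => ?_
      rw [hT.map_reg]
      congr 2
      refine DFunLike.congr_fun (congrArg T.reg ?_) z
      have e : ((γ ^ i : F ≃ₐ[ℚ] F) * γ ^ k) = γ ^ k * γ ^ i := by rw [← pow_add, ← pow_add, add_comm]
      refine RingHom.ext fun z => ?_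
      exact congrArg σ (DFunLike.congr_fun e z)
    have h3 : ∀ z : T.K F, ω ^ i * S T m σ γ ω (T.map ((γ ^ i : F ≃ₐ[ℚ] F) : F →+* F) z) =
        S T m σ γ ω z := fun z => S_shift_pow hT σ hγ hω z i
    simp only [sub_mul]
    rw [Finset.sum_sub_distrib, h2 x]
    have h4 : ∑ w, r * coef m γ ω (b.coord w) y *
        (T.reg (σ.comp ((γ ^ i : F ≃ₐ[ℚ] F) : F →+* F)) (b w) : ℂ) =
        r * S T m σ γ ω (T.map ((γ ^ i : F ≃ₐ[ℚ] F) : F →+* F) y) := by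
      rw [← h2 y, Finset.mul_sum]
      exact Finset.sum_congr rfl fun w _ => by ring
    rw [h4]
    refine mul_left_cancel₀ (pow_ne_zero i hω0) ?_
    rw [mul_zero, mul_sub, h3, mul_left_comm, h3, h, sub_self]
  have h5 : ∀ z : T.K F, coef m γ ω l z = ∑ w, ((l (b w) : ℚ) : ℂ) * coef m γ ω (b.coord w) z := by
    intro z
    unfold coef
    simp only [Finset.mul_sum]
    rw [Finset.sum_comm]
    refine Finset.sum_congr rfl fun k _ => ?_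
    have h6 : l (T.map ((γ ^ k : F ≃ₐ[ℚ] F) : F →+* F) z) =
        ∑ w, b.coord w (T.map ((γ ^ k : F ≃ₐ[ℚ] F) : F →+* F) z) * l (b w) := by
      conv_lhs => rw [← b.sum_repr (T.map ((γ ^ k : F ≃ₐ[ℚ] F) : F →+* F) z)]
      rw [map_sum]
      refine Finset.sum_congr rfl fun w _ => ?_
      rw [map_smul, smul_eq_mul]
      rfl
    rw [h6]
    push_cast
    rw [Finset.mul_sum]
    exact Finset.sum_congr rfl fun w _ => by ring
  rw [h5 x, h5 y, Finset.mul_sum]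
  refine Finset.sum_congr rfl fun w _ => ?_
  rw [sub_eq_zero.1 (h1 w)]
  ring

end

end Pool.Agent.Q219.ZG
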