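import Pool.Agent.Q219.ZG.Cyc

/-!
# Zagier's conjecture for cyclic fields: characters
-/

set_option autoImplicit false

namespace Pool.Agent.Q219.ZG

open GonP NumberField

section

variable {T : KTheory} {n : ℕ} {F : Type} [Field F] [NumberField F]

/-- conjugate characters -/
lemma S_conj (hT : T.IsKnown' n) {m : ℕ} (hm : 0 < m) (σ : F →+* ℂ) {γ : F ≃ₐ[ℚ] F} (hγ : γ ^ m = 1)
    (hg : ∀ τ : F →+* ℂ, ∃ i : ℕ, τ = σ.comp ((γ ^ i : F ≃ₐ[ℚ] F) : F →+* F)) {ω ω' : ℂ}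
    (hω : IsPrimitiveRoot ω m) (hω' : IsPrimitiveRoot ω' m) {x : T.K F} (h : S T m σ γ ω x = 0) :
    S T m σ γ ω' x = 0 := by
  obtain ⟨b, hb, -⟩ := hT.borel F
  have h1 : ∀ w, coef m γ ω (b.coord w) x = 0 := fun w => by
    have := coef_rel hT σ hγ hg hω.pow_eq_one (hω.ne_zero hm.ne') (x := x) (y := 0) (r := 0)
      (by rw [h, zero_mul]) (b.coord w)
    rwa [zero_mul] at this
  have h2 : ∀ w, coef m γ ω' (b.coord w) x = 0 := by
    intro w
    let P : Polynomial ℚ := ∑ k ∈ Finset.range m,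
      Polynomial.C (b.coord w (T.map ((γ ^ k : F ≃ₐ[ℚ] F) : F →+* F) x)) * Polynomial.X ^ k
    have h3 : ∀ z : ℂ, Polynomial.aeval z P = coef m γ z (b.coord w) x := by
      intro z
      simp only [P, map_sum, map_mul, Polynomial.aeval_C, map_pow, Polynomial.aeval_X]
      unfold coef
      refine Finset.sum_congr rfl fun k _ => ?_
      rw [mul_comm]
      rfl
    have h4 : Polynomial.cyclotomic m ℚ ∣ P := by
      rw [Polynomial.cyclotomic_eq_minpoly_rat hω hm]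
      exact minpoly.dvd ℚ ω (by rw [h3]; exact h1 w)
    have h5 : Polynomial.aeval ω' (Polynomial.cyclotomic m ℚ) = 0 := by
      rw [Polynomial.cyclotomic_eq_minpoly_rat hω' hm]
      exact minpoly.aeval ℚ ω'
    obtain ⟨Q, hQ⟩ := h4
    rw [← h3, hQ, map_mul, h5, zero_mul]
  rw [S_eq_sum hT b]
  exact Finset.sum_eq_zero fun w _ => by rw [h2, zero_mul]

/-- multiplicity one -/
lemma mult_one (hT : T.IsKnown' n) {m : ℕ} (σ : F →+* ℂ) {γ : F ≃ₐ[ℚ] F} (hγ : γ ^ m = 1)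
    (hg : ∀ τ : F →+* ℂ, ∃ i : ℕ, τ = σ.comp ((γ ^ i : F ≃ₐ[ℚ] F) : F →+* F)) {ω : ℂ}
    (hω : ω ^ m = 1) (hω0 : ω ≠ 0) {W U : Submodule ℚ (T.K F)}
    (hW : ∀ g : F ≃ₐ[ℚ] F, ∀ w ∈ W, T.map (g : F →+* F) w ∈ W)
    (hU : ∀ g : F ≃ₐ[ℚ] F, ∀ u ∈ U, T.map (g : F →+* F) u ∈ U)
    (hd : W ⊓ U = ⊥) (hs : W ⊔ U = ⊤) {u w : T.K F} (hu : u ∈ U) (hw : w ∈ W)
    (hSw : S T m σ γ ω w ≠ 0) : S T m σ γ ω u = 0 := by
  have hc : IsCompl U W := by
    refine ⟨?_, ?_⟩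
    · rw [disjoint_iff, inf_comm]
      exact hd
    · rw [codisjoint_iff, sup_comm]
      exact hs
  let π : T.K F →ₗ[ℚ] T.K F := U.subtype ∘ₗ U.projectionOnto W hc
  have hπU : ∀ z ∈ U, π z = z := fun z hz => by
    show ((U.projectionOnto W hc z : U) : T.K F) = z
    rw [Submodule.projectionOnto_apply_left hc ⟨z, hz⟩]
  have hπW : ∀ z ∈ W, π z = 0 := fun z hz => by
    show ((U.projectionOnto W hc z : U) : T.K F) = 0
    rw [(Submodule.projectionOnto_apply_eq_zero_iff hc).2 hz]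
    rfl
  have h1 : ∀ l : T.K F →ₗ[ℚ] ℚ, coef m γ ω l u = 0 := by
    intro l
    have h2 := coef_rel hT σ hγ hg hω hω0 (x := u) (y := w)
      (r := S T m σ γ ω u / S T m σ γ ω w) (by field_simp) (l ∘ₗ π)
    have h3 : coef m γ ω (l ∘ₗ π) w = 0 := by
      unfold coef
      refine Finset.sum_eq_zero fun k _ => ?_
      rw [LinearMap.comp_apply, hπW _ (hW _ _ hw), map_zero]
      simp
    have h4 : coef m γ ω (l ∘ₗ π) u = coef m γ ω l u := by
      unfold coef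
      refine Finset.sum_congr rfl fun k _ => ?_
      rw [LinearMap.comp_apply, hπU _ (hU _ _ hu)]
    rw [h3, mul_zero, h4] at h2
    exact h2
  obtain ⟨b, hb, -⟩ := hT.borel F
  rw [S_eq_sum hT b]
  exact Finset.sum_eq_zero fun w _ => by rw [h1, zero_mul]

/-- characters which are not faithful -/
lemma S_eq_zero_of_free (hT : T.IsKnown' n) {m : ℕ} (hm : 0 < m) (σ : F →+* ℂ) {γ : F ≃ₐ[ℚ] F}
    (hγ : γ ^ m = 1) {ω : ℂ} (hω : ω ^ m = 1) {d : ℕ} (hd : γ ^ d ≠ 1) (hωd : ω ^ d = 1)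
    {U : Submodule ℚ (T.K F)} (hs : ∀ g : F ≃ₐ[ℚ] F, ∀ u ∈ U, T.map (g : F →+* F) u ∈ U)
    (hf : ∀ g : F ≃ₐ[ℚ] F, ∀ u ∈ U, T.map (g : F →+* F) u = u → g = 1 ∨ u = 0) {u : T.K F}
    (hu : u ∈ U) : S T m σ γ ω u = 0 := by
  set N : T.K F := ∑ j ∈ Finset.range m, T.map ((γ ^ (d * j) : F ≃ₐ[ℚ] F) : F →+* F) u with hN
  have hNU : N ∈ U := U.sum_mem fun j _ => hs _ _ hu
  have hfix : T.map ((γ ^ d : F ≃ₐ[ℚ] F) : F →+* F) N = N := by
    rw [hN, map_sum]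
    have h1 : ∀ j ∈ Finset.range m, T.map ((γ ^ d : F ≃ₐ[ℚ] F) : F →+* F)
        (T.map ((γ ^ (d * j) : F ≃ₐ[ℚ] F) : F →+* F) u) =
        T.map ((γ ^ (d * (j + 1)) : F ≃ₐ[ℚ] F) : F →+* F) u := by
      intro j _
      rw [← map_mul' hT, ← pow_add, mul_add, mul_one, add_comm d]
    rw [Finset.sum_congr rfl h1]
    have h2 := Finset.sum_range_succ' (fun j => T.map ((γ ^ (d * j) : F ≃ₐ[ℚ] F) : F →+* F) u) m
    have h3 := Finset.sum_range_succ (fun j => T.map ((γ ^ (d * j) : F ≃ₐ[ℚ] F) : F →+* F) u) m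
    rw [h2] at h3
    have h4 : γ ^ (d * m) = 1 := by rw [mul_comm, pow_mul, hγ, one_pow]
    rw [h4, mul_zero, pow_zero] at h3
    exact add_right_cancel h3
  have hN0 : N = 0 := (hf _ _ hNU hfix).resolve_left hd
  have h5 : S T m σ γ ω N = m * S T m σ γ ω u := by
    rw [hN, S_sum]
    have h6 : ∀ j ∈ Finset.range m, S T m σ γ ω (T.map ((γ ^ (d * j) : F ≃ₐ[ℚ] F) : F →+* F) u) =
        S T m σ γ ω u := by
      intro j _
      have h7 := S_shift_pow hT σ hγ hω u (d * j)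
      rwa [pow_mul, hωd, one_pow, one_mul] at h7
    rw [Finset.sum_congr rfl h6, Finset.sum_const, Finset.card_range, nsmul_eq_mul]
  rw [hN0, S_zero] at h5
  rcases mul_eq_zero.1 h5.symm with h6 | h6
  · exact absurd h6 (by exact_mod_cast hm.ne')
  · exact h6

/-- an element all of whose sums vanish -/
lemma eq_zero_of_S (hT : T.IsKnown' n) {m : ℕ} (hm : 0 < m) (σ : F →+* ℂ) {γ : F ≃ₐ[ℚ] F}
    (hγ : γ ^ m = 1)
    (hg : ∀ τ : F →+* ℂ, ∃ i : ℕ, τ = σ.comp ((γ ^ i : F ≃ₐ[ℚ] F) : F →+* F)) {ω : ℂ}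
    (hω : IsPrimitiveRoot ω m) {u : T.K F} (h1 : ∀ j : ℕ, S T m σ γ (ω ^ j) u = 0) : u = 0 := by
  refine hT.inj_reg u ?_
  let P : Polynomial ℂ := ∑ k ∈ Finset.range m,
    Polynomial.C (T.reg (σ.comp ((γ ^ k : F ≃ₐ[ℚ] F) : F →+* F)) u : ℂ) * Polynomial.X ^ k
  have hP : ∀ z, P.eval z = S T m σ γ z u := by
    intro z
    simp only [P, Polynomial.eval_finsetSum, Polynomial.eval_mul, Polynomial.eval_C,
      Polynomial.eval_pow, Polynomial.eval_X]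
    unfold S
    exact Finset.sum_congr rfl fun k _ => mul_comm _ _
  have hdeg : P.natDegree < m := by
    have h2 : P.degree < m := by
      refine lt_of_le_of_lt (Polynomial.degree_sum_le _ _) ?_
      rw [Finset.sup_lt_iff (by exact WithBot.bot_lt_coe m)]
      intro k hk
      refine lt_of_le_of_lt (Polynomial.degree_C_mul_X_pow_le k _) ?_
      exact_mod_cast Finset.mem_range.1 hk
    by_cases hP0 : P = 0
    · rw [hP0, Polynomial.natDegree_zero]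
      exact hm
    · exact (Polynomial.natDegree_lt_iff_degree_lt hP0).2 h2
  have hP0 : P = 0 := by
    refine Polynomial.eq_zero_of_natDegree_lt_card_of_eval_eq_zero P (f := fun j : Fin m => ω ^ (j : ℕ))
      (fun a b hab => Fin.ext (hω.pow_inj a.2 b.2 hab)) (fun j => ?_) (by rwa [Fintype.card_fin])
    rw [hP]
    exact h1 j
  intro τ
  obtain ⟨i, rfl⟩ := hg τ
  have h8 : P.coeff (i % m) = (T.reg (σ.comp ((γ ^ (i % m) : F ≃ₐ[ℚ] F) : F →+* F)) u : ℂ) := by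
    simp only [P, Polynomial.finsetSum_coeff, Polynomial.coeff_C_mul_X_pow]
    rw [Finset.sum_eq_single (i % m)]
    · simp
    · intro k _ hk
      rw [if_neg (Ne.symm hk)]
    · intro h
      exact absurd (Finset.mem_range.2 (Nat.mod_lt i hm)) h
  rw [hP0, Polynomial.coeff_zero] at h8
  rw [pow_eq_pow_mod i hγ]
  exact_mod_cast h8.symm

/-- on a space with a free action, the sums do not vanish -/
lemma exists_S_ne (hT : T.IsKnown' n) {m : ℕ} (hm : 0 < m) (σ : F →+* ℂ) {γ : F ≃ₐ[ℚ] F}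
    (hγ : γ ^ m = 1) (hγ' : ∀ d, 0 < d → d < m → γ ^ d ≠ 1)
    (hg : ∀ τ : F →+* ℂ, ∃ i : ℕ, τ = σ.comp ((γ ^ i : F ≃ₐ[ℚ] F) : F →+* F)) {ω : ℂ}
    (hω : IsPrimitiveRoot ω m)
    {U : Submodule ℚ (T.K F)} (hs : ∀ g : F ≃ₐ[ℚ] F, ∀ u ∈ U, T.map (g : F →+* F) u ∈ U)
    (hf : ∀ g : F ≃ₐ[ℚ] F, ∀ u ∈ U, T.map (g : F →+* F) u = u → g = 1 ∨ u = 0) (hne : U ≠ ⊥) :
    ∃ u ∈ U, S T m σ γ ω u ≠ 0 := by
  by_contra hcon
  have hz : ∀ u ∈ U, S T m σ γ ω u = 0 := by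
    intro u hu
    by_contra h
    exact hcon ⟨u, hu, h⟩
  refine hne ((Submodule.eq_bot_iff _).2 fun u hu => ?_)
  have h1 : ∀ j : ℕ, S T m σ γ (ω ^ j) u = 0 := by
    intro j
    by_cases hj : j.Coprime m
    · exact S_conj hT hm σ hγ hg hω (hω.pow_of_coprime j hj) (hz u hu)
    · have hgcd : 1 < j.gcd m := by
        have h2 : 0 < j.gcd m := Nat.gcd_pos_of_pos_right j hm
        have h3 : j.gcd m ≠ 1 := hj
        omega
      have hdm : j.gcd m * (m / j.gcd m) = m := Nat.mul_div_cancel' (Nat.gcd_dvd_right j m)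
      refine S_eq_zero_of_free hT hm σ hγ (by rw [← pow_mul, mul_comm, pow_mul, hω.pow_eq_one, one_pow])
        (d := m / j.gcd m) (hγ' _ (Nat.div_pos (Nat.gcd_le_right j hm) (by omega))
          (Nat.div_lt_self hm hgcd)) ?_ hs hf hu
      obtain ⟨k, hk⟩ := Nat.gcd_dvd_left j m
      have h4 : j * (m / j.gcd m) = m * k := by
        conv_lhs => rw [hk]
        rw [mul_assoc, mul_comm k, ← mul_assoc]
        rw [← hk, hdm]
      rw [← pow_mul, h4, pow_mul, hω.pow_eq_one, one_pow]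
  exact eq_zero_of_S hT hm σ hγ hg hω h1
end

end Pool.Agent.Q219.ZG
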