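import Pool.Agent.H39R2.GonP.Defs

/-!
# Zagier's conjecture on the values `ζ_F(n)`: definitions
-/

set_option autoImplicit false

namespace Pool.Agent.Q219.ZG

open GonP NumberField

/-- The series `Li_m(z) = Σ_{j ≥ 1} z^j / j^m`, for `|z| ≤ 1`. -/
noncomputable def Li (m : ℕ) (z : ℂ) : ℂ := ∑' j : ℕ, z ^ (j + 1) / ((j : ℂ) + 1) ^ m

/-- The coefficients `β_k` of `2x/(e^(2x) - 1) = Σ β_k x^k`. -/
noncomputable def beta (k : ℕ) : ℝ := 2 ^ k * (bernoulli k : ℝ) / (k.factorial : ℝ)

/-- The sum `Σ_{k < n} β_k log^k |z| Li_(n-k)(z)`, for `|z| ≤ 1`. -/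
noncomputable def liSum (n : ℕ) (z : ℂ) : ℂ :=
  ∑ k ∈ Finset.range n, ((beta k * Real.log ‖z‖ ^ k : ℝ) : ℂ) * Li (n - k) z

open Classical in
/-- The real part (`n` odd) or imaginary part (`n` even). -/
noncomputable def part (n : ℕ) (z : ℂ) : ℝ := if Odd n then z.re else z.im

open Classical in
/-- The single-valued polylogarithm on `P^1(ℂ)`: given by the series for `|z| ≤ 1`, and by
`L_n(z) = (-1)^(n-1) L_n(1/z)` for `|z| > 1` and `z = ∞`. -/
noncomputable def polylog (n : ℕ) : P1 ℂ → ℝ
  | none => 0
  | some z => if ‖z‖ ≤ 1 then part n (liSum n z) else (-1) ^ (n - 1) * part n (liSum n z⁻¹)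

section

variable {F L : Type} [Field F] [Field L]

/-- The map `P^1(F) → P^1(L)` given by the homomorphism `f : F → L`. -/
def mapP (f : F →+* L) : P1 F → P1 L := Option.map f

/-- The map `ℤ[P^1_F] → ℤ[P^1_L]` given by the homomorphism `f : F → L`. -/
noncomputable def mapZ (f : F →+* L) : ZP F → ZP L := lift (fun x => gen (mapP f x))

/-- The number `L_n(σ(α))`, for `α` in `ℤ[P^1_F]` and an embedding `σ` of `F` into `ℂ`. -/
noncomputable def value (n : ℕ) (σ : F →+* ℂ) : ZP F → ℝ := lift (fun x => polylog n (mapP σ x))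

/-- The kernel of `δ_n` in `ℤ[P^1_F]`, for `n ≥ 3`: `δ_n{x} = {x}_(n-1) ⊗ x`. -/
def Ker (n : ℕ) (F : Type) [Field F] : Set (ZP F) := AS F (R (n - 1) F)

end

/-- The infinite places of `F` (`n` odd), the complex places of `F` (`n` even). There are `d_n`
of them. -/
def Idx (n : ℕ) (F : Type) [Field F] : Type := {w : InfinitePlace F // Odd n ∨ w.IsComplex}

noncomputable instance (n : ℕ) (F : Type) [Field F] [NumberField F] : Fintype (Idx n F) := by
  classical
  unfold Idx
  infer_instance

noncomputable instance (n : ℕ) (F : Type) [Field F] : DecidableEq (Idx n F) := Classical.decEq _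

/-- The determinant of a square matrix with the index set `Idx n F`. -/
noncomputable def determinant {n : ℕ} {F : Type} [Field F] [NumberField F]
    (a : Idx n F → Idx n F → ℝ) : ℝ := Matrix.det (Matrix.of a)

/-- The number `π^(n d_(n-1)) d_F^(-1/2)`. -/
noncomputable def factorZ (n : ℕ) (F : Type) [Field F] [NumberField F] : ℝ :=
  Real.pi ^ (n * Fintype.card (Idx (n - 1) F)) * (Real.sqrt |(discr F : ℝ)|)⁻¹

/-- The number `x` is a nonzero rational multiple of the number `y`. -/
def IsMultiple (x : ℂ) (y : ℝ) : Prop := ∃ q : ℚ, q ≠ 0 ∧ x = (((q : ℝ) * y : ℝ) : ℂ)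

/-- **Zagier's conjecture for the number field `F` and `n ≥ 3`.** There are elements `y_w` of
`ker δ_n`, one for each index `w`, such that `ζ_F(n)` is a nonzero rational multiple of
`π^(n d_(n-1)) d_F^(-1/2) det |L_n(σ_v(y_w))|`, `σ_v` the embedding given by the place `v`. (Elements of
`ker δ_n ⊗ ℚ` are rational multiples of elements of `ker δ_n`.) -/
def Zagier (n : ℕ) (F : Type) [Field F] [NumberField F] : Prop :=
  ∃ y : Idx n F → ZP F, (∀ w, y w ∈ Ker n F) ∧
    IsMultiple (dedekindZeta F n) (factorZ n F * determinant fun w v => value n v.1.embedding (y w))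

/-- The rational `K`-groups `K_(2n-1)(F) ⊗ ℚ` of all number fields, with the maps given by the
homomorphisms of fields, and the Borel regulator `reg σ` for all embeddings `σ` into `ℂ`. -/
structure KTheory where
  K : ∀ (F : Type) [Field F] [NumberField F], Type
  [acg : ∀ (F : Type) [Field F] [NumberField F], AddCommGroup (K F)]
  [mod : ∀ (F : Type) [Field F] [NumberField F], Module ℚ (K F)]
  map : ∀ {F L : Type} [Field F] [NumberField F] [Field L] [NumberField L],
    (F →+* L) → K F →ₗ[ℚ] K L
  reg : ∀ {F : Type} [Field F] [NumberField F], (F →+* ℂ) → K F →ₗ[ℚ] ℝ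

attribute [instance] KTheory.acg KTheory.mod

/-- The complex conjugate of an embedding. -/
noncomputable def conj {F : Type} [Field F] (σ : F →+* ℂ) : F →+* ℂ := (starRingEnd ℂ).comp σ

/-- The known facts. -/
structure KTheory.IsKnown (T : KTheory) (n : ℕ) : Prop where
  /-- the regulator is compatible with the maps of fields -/
  map_reg : ∀ {F L : Type} [Field F] [NumberField F] [Field L] [NumberField L] (f : F →+* L)
    (σ : L →+* ℂ) (x : T.K F), T.reg σ (T.map f x) = T.reg (σ.comp f) x
  /-- the regulators of complex conjugate embeddings -/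
  conj_reg : ∀ {F : Type} [Field F] [NumberField F] (σ : F →+* ℂ) (x : T.K F),
    T.reg (conj σ) x = (-1) ^ (n - 1) * T.reg σ x
  /-- the image of the regulator is a lattice whose covolume is given by `ζ_F(n)` (Borel) -/
  borel : ∀ (F : Type) [Field F] [NumberField F], ∃ b : Module.Basis (Idx n F) ℚ (T.K F),
    (determinant fun w v => T.reg v.1.embedding (b w)) ≠ 0 ∧
    IsMultiple (dedekindZeta F n) (factorZ n F * determinant fun w v => T.reg v.1.embedding (b w))
  /-- the map `l_n` (Beilinson-Deligne, de Jeu) -/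
  polylog : ∀ {F : Type} [Field F] [NumberField F], ∀ α ∈ Ker n F, ∃ x : T.K F,
    ∀ σ, T.reg σ x = value n σ α

end Pool.Agent.Q219.ZG
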