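import Pool.Agent.Q219.ZG.Functor

/-!
# Galois descent for the rational K-groups, from Borel's theorem
-/

set_option autoImplicit false

namespace Pool.Agent.Q219.ZG

open GonP NumberField

section

variable {T : KTheory} {n : ℕ}

/-- elements which are linearly independent over `ℚ` have regulators which are linearly independent
over `ℝ` -/
lemma indepQ (hT : T.IsKnown n) {F : Type} [Field F] [NumberField F] {ι : Type} [Fintype ι]
    {v : ι → T.K F} (hv : LinearIndependent ℚ v) (c : ι → ℝ)
    (hc : ∀ τ : F →+* ℂ, ∑ i, c i * T.reg τ (v i) = 0) (i0 : ι) : c i0 = 0 := by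
  obtain ⟨b, hb, -⟩ := hT.borel F
  have h1 : ∀ w, ∑ i, c i * ((b.coord w (v i) : ℚ) : ℝ) = 0 := by
    have h2 : (fun w => ∑ i, c i * ((b.coord w (v i) : ℚ) : ℝ)) = 0 := by
      refine Matrix.eq_zero_of_vecMul_eq_zero hb (funext fun u => ?_)
      show ∑ w, (∑ i, c i * ((b.coord w (v i) : ℚ) : ℝ)) * T.reg u.1.embedding (b w) = 0
      rw [← hc u.1.embedding]
      simp only [Finset.sum_mul]
      rw [Finset.sum_comm]
      refine Finset.sum_congr rfl fun i _ => ?_
      have h3 : T.reg u.1.embedding (v i) =
          ∑ w, ((b.coord w (v i) : ℚ) : ℝ) * T.reg u.1.embedding (b w) := by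
        conv_lhs => rw [← b.sum_repr (v i)]
        rw [map_sum]
        refine Finset.sum_congr rfl fun w _ => ?_
        rw [map_smul, Rat.smul_def]
        rfl
      rw [h3, Finset.mul_sum]
      exact Finset.sum_congr rfl fun w _ => mul_assoc _ _ _
    exact congrFun h2
  rw [← Module.forall_dual_apply_eq_zero_iff ℚ (c i0)]
  intro f
  have h3 : ∑ i, f (c i) • v i = 0 := by
    refine b.ext_elem fun w => ?_
    have h4 : b.coord w (∑ i, f (c i) • v i) = f (∑ i, c i * ((b.coord w (v i) : ℚ) : ℝ)) := by
      rw [map_sum, map_sum]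
      refine Finset.sum_congr rfl fun i _ => ?_
      have h5 : c i * ((b.coord w (v i) : ℚ) : ℝ) = (b.coord w (v i)) • c i := by
        rw [Rat.smul_def, mul_comm]
      rw [h5, map_smul, map_smul, smul_eq_mul, smul_eq_mul, mul_comm]
    rw [h1, map_zero] at h4
    rw [map_zero]
    exact h4
  exact Fintype.linearIndependent_iff.1 hv _ h3 i0

/-- embeddings with the same restriction to `L^H` -/
lemma reg_eq_of_comp_eq (hT : T.IsKnown n) {L : Type} [Field L] [NumberField L]
    (H : Subgroup (L ≃ₐ[ℚ] L)) {x : T.K L} (hx : ∀ g ∈ H, T.map (g : L →+* L) x = x)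
    {τ τ' : L →+* ℂ}
    (h : τ.comp (IntermediateField.fixedField H).val.toRingHom =
      τ'.comp (IntermediateField.fixedField H).val.toRingHom) : T.reg τ x = T.reg τ' x := by
  have hgal : IsGalois (IntermediateField.fixedField H) L := IsGalois.of_fixed_field L H
  obtain ⟨g, hg⟩ := NumberField.ComplexEmbedding.exists_comp_symm_eq_of_comp_eq
    (k := IntermediateField.fixedField H) τ τ' h
  have h1 : (g.symm.restrictScalars ℚ : L ≃ₐ[ℚ] L) ∈ H := by
    have h2 : (g.symm.restrictScalars ℚ : L ≃ₐ[ℚ] L) ∈ (IntermediateField.fixedField H).fixingSubgroup := by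
      rw [IntermediateField.mem_fixingSubgroup_iff]
      intro z hz
      exact g.symm.commutes ⟨z, hz⟩
    rwa [IntermediateField.fixingSubgroup_fixedField] at h2
  have h3 := hT.map_reg ((g.symm.restrictScalars ℚ : L ≃ₐ[ℚ] L) : L →+* L) τ x
  rw [hx _ h1] at h3
  rw [h3, ← hg]
  rfl

/-- Galois descent -/
lemma descent_of_borel (hT : T.IsKnown n) (hn0 : 0 < n) {L : Type} [Field L] [NumberField L]
    (H : Subgroup (L ≃ₐ[ℚ] L)) (x : T.K L) (hx : ∀ g ∈ H, T.map (g : L →+* L) x = x) :
    ∃ y : T.K (IntermediateField.fixedField H),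
      T.map (IntermediateField.fixedField H).val.toRingHom y = x := by
  let V : Submodule ℚ (T.K L) :=
    { carrier := {x | ∀ g ∈ H, T.map (g : L →+* L) x = x}
      zero_mem' := fun g _ => map_zero _
      add_mem' := fun {a b} ha hb g hg => by rw [map_add, ha g hg, hb g hg]
      smul_mem' := fun q a ha g hg => by rw [map_smul, ha g hg] }
  have hfdL : FiniteDimensional ℚ (T.K L) := by
    obtain ⟨b, -, -⟩ := hT.borel L
    exact Module.Finite.of_basis b
  obtain ⟨bE, -, -⟩ := hT.borel (IntermediateField.fixedField H)
  have hr : LinearMap.range (T.map (IntermediateField.fixedField H).val.toRingHom) ≤ V := by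
    rintro _ ⟨y, rfl⟩ g hg
    rw [← sub_eq_zero]
    refine inj_of_borel hT _ fun σ => ?_
    rw [map_sub, hT.map_reg, hT.map_reg, hT.map_reg, sub_eq_zero]
    have e : (σ.comp (g : L →+* L)).comp (IntermediateField.fixedField H).val.toRingHom =
        σ.comp (IntermediateField.fixedField H).val.toRingHom :=
      RingHom.ext fun z => congrArg σ (z.2 ⟨g, hg⟩)
    rw [e]
  have hinj : Function.Injective (T.map (IntermediateField.fixedField H).val.toRingHom) := by
    rw [injective_iff_map_eq_zero]
    intro y hy
    refine inj_of_borel hT y fun τ => ?_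
    have h1 := hT.map_reg (IntermediateField.fixedField H).val.toRingHom (ComplexEmbedding.lift L τ) y
    rw [hy, map_zero] at h1
    have h2 : (ComplexEmbedding.lift L τ).comp (IntermediateField.fixedField H).val.toRingHom = τ :=
      ComplexEmbedding.lift_comp_algebraMap L τ
    rw [h2] at h1
    exact h1.symm
  have hdim : Module.finrank ℚ V ≤ Fintype.card (Idx n (IntermediateField.fixedField H)) := by
    let v := Module.finBasis ℚ V
    have hv : LinearIndependent ℚ (fun i => (v i : T.K L)) :=
      v.linearIndependent.map' V.subtype (Submodule.ker_subtype V)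
    let R : Fin (Module.finrank ℚ V) → (Idx n (IntermediateField.fixedField H) → ℝ) :=
      fun i w => T.reg (ComplexEmbedding.lift L w.1.embedding) (v i)
    have hR : LinearIndependent ℝ R := by
      rw [Fintype.linearIndependent_iff]
      intro c hc
      have hc' : ∀ w : Idx n (IntermediateField.fixedField H),
          ∑ i, c i * T.reg (ComplexEmbedding.lift L w.1.embedding) (v i : T.K L) = 0 := by
        intro w
        have h1 := congrFun hc w
        rw [Finset.sum_apply] at h1
        exact h1
      refine indepQ hT hv c fun τ => ?_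
      set ι := (IntermediateField.fixedField H).val.toRingHom with hι
      have hcj : ∀ i, T.reg (conj τ) (v i : T.K L) = (-1) ^ (n - 1) * T.reg τ (v i : T.K L) :=
        fun i => hT.conj_reg τ _
      have hres : ∀ w : InfinitePlace (IntermediateField.fixedField H),
          (ComplexEmbedding.lift L w.embedding).comp ι = w.embedding := fun w =>
        ComplexEmbedding.lift_comp_algebraMap L w.embedding
      have hpl : (InfinitePlace.mk (τ.comp ι)).embedding = τ.comp ι ∨
          (InfinitePlace.mk (τ.comp ι)).embedding = (conj τ).comp ι := by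
        rcases InfinitePlace.embedding_mk_eq (τ.comp ι) with h | h
        · exact Or.inl h
        · exact Or.inr h
      by_cases hidx : Odd n ∨ (InfinitePlace.mk (τ.comp ι)).IsComplex
      · have h1 := hc' ⟨InfinitePlace.mk (τ.comp ι), hidx⟩
        rcases hpl with h | h
        · rw [← h1]
          refine Finset.sum_congr rfl fun i _ => ?_
          congr 1
          refine reg_eq_of_comp_eq hT H (v i).2 ?_
          show τ.comp ι = (ComplexEmbedding.lift L (InfinitePlace.mk (τ.comp ι)).embedding).comp ι
          rw [hres, h]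
        · have h2 : ∑ i, c i * T.reg (conj τ) (v i : T.K L) = 0 := by
            rw [← h1]
            refine Finset.sum_congr rfl fun i _ => ?_
            congr 1
            refine reg_eq_of_comp_eq hT H (v i).2 ?_
            show (conj τ).comp ι = (ComplexEmbedding.lift L (InfinitePlace.mk (τ.comp ι)).embedding).comp ι
            rw [hres, h]
          simp only [hcj] at h2
          have h3 : ∑ i, c i * ((-1) ^ (n - 1) * T.reg τ (v i : T.K L)) =
              (-1) ^ (n - 1) * ∑ i, c i * T.reg τ (v i : T.K L) := by
            rw [Finset.mul_sum]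
            exact Finset.sum_congr rfl fun i _ => by ring
          rw [h3] at h2
          exact (mul_eq_zero.1 h2).resolve_left (pow_ne_zero _ (by norm_num))
      · rw [not_or, Nat.not_odd_iff_even, InfinitePlace.isComplex_mk_iff, not_not] at hidx
        obtain ⟨hev, hreal⟩ := hidx
        have h4 : (conj τ).comp ι = τ.comp ι := hreal
        refine Finset.sum_eq_zero fun i _ => ?_
        have h5 : T.reg (conj τ) (v i : T.K L) = T.reg τ (v i : T.K L) :=
          reg_eq_of_comp_eq hT H (v i).2 h4
        rw [hcj, (Nat.Even.sub_odd hn0 hev odd_one).neg_one_pow] at h5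
        have h6 : T.reg τ (v i : T.K L) = 0 := by linarith
        rw [h6, mul_zero]
    have h7 := hR.fintype_card_le_finrank
    rwa [Fintype.card_fin, Module.finrank_fintype_fun_eq_card] at h7
  have heq : LinearMap.range (T.map (IntermediateField.fixedField H).val.toRingHom) = V := by
    refine Submodule.eq_of_le_of_finrank_le hr ?_
    rw [LinearMap.finrank_range_of_inj hinj, Module.finrank_eq_card_basis bE]
    exact hdim
  have hxV : x ∈ V := hx
  rw [← heq] at hxV
  exact hxV

end

/-- the known facts and their consequences -/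
structure KTheory.IsKnown' (T : KTheory) (n : ℕ) : Prop extends T.IsKnown n where
  functor : ∀ {F L : Type} [Field F] [NumberField F] [Field L] [NumberField L] (f : F →+* L),
    ∀ α ∈ Ker n F, mapZ f α ∈ Ker n L
  inj_reg : ∀ {F : Type} [Field F] [NumberField F] (x : T.K F), (∀ σ, T.reg σ x = 0) → x = 0
  descent : ∀ {L : Type} [Field L] [NumberField L] (H : Subgroup (L ≃ₐ[ℚ] L)) (x : T.K L),
    (∀ g ∈ H, T.map (g : L →+* L) x = x) →
      ∃ y : T.K (IntermediateField.fixedField H), T.map (IntermediateField.fixedField H).val.toRingHom y = x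

lemma KTheory.IsKnown.known' {T : KTheory} {n : ℕ} (hT : T.IsKnown n) (hn : 3 ≤ n) : T.IsKnown' n :=
  { hT with
    functor := fun f _ hα => Ker_map hn f hα
    inj_reg := inj_of_borel hT
    descent := fun H x hx => descent_of_borel hT (by omega) H x hx }

end Pool.Agent.Q219.ZG
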