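import Pool.Agent.Q219.ZG.Cyc2

/-!
# Zagier's conjecture for cyclic and abelian fields
-/

set_option autoImplicit false

namespace Pool.Agent.Q219.ZG

open GonP NumberField

section

variable {T : KTheory} {n : ℕ} {F : Type} [Field F] [NumberField F]

lemma orderOf_gen {γ : F ≃ₐ[ℚ] F} (h : IsGenerator γ) : orderOf γ = Module.finrank ℚ F := by
  have := h.1
  rw [orderOf_eq_card_of_forall_mem_zpowers h.2, IsGalois.card_aut_eq_finrank]

lemma exists_pow {γ : F ≃ₐ[ℚ] F} (h : IsGenerator γ) (g : F ≃ₐ[ℚ] F) : ∃ i : ℕ, g = γ ^ i := by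
  obtain ⟨i, hi⟩ := (mem_powers_iff_mem_zpowers.2 (h.2 g) : g ∈ Submonoid.powers γ)
  exact ⟨i, hi.symm⟩

lemma exists_emb {γ : F ≃ₐ[ℚ] F} (h : IsGenerator γ) (σ τ : F →+* ℂ) :
    ∃ i : ℕ, τ = σ.comp ((γ ^ i : F ≃ₐ[ℚ] F) : F →+* F) := by
  have := h.1
  obtain ⟨g, hg⟩ := NumberField.ComplexEmbedding.exists_comp_symm_eq_of_comp_eq (k := ℚ) σ τ
    (Subsingleton.elim _ _)
  obtain ⟨i, hi⟩ := exists_pow h g.symm
  refine ⟨i, ?_⟩
  rw [← hi, ← hg]

lemma charSum_eq {x : T.K F} {α : ZP F} (σ : F →+* ℂ) (γ : F ≃ₐ[ℚ] F)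
    (hx : ∀ τ : F →+* ℂ, T.reg τ x = value n τ α) :
    charSum n σ γ α = S T (Module.finrank ℚ F) σ γ
      (Complex.exp (2 * Real.pi * Complex.I / (Module.finrank ℚ F : ℕ))) x := by
  unfold charSum S
  refine Finset.sum_congr rfl fun k _ => ?_
  rw [hx]

lemma prim (F : Type) [Field F] [NumberField F] :
    IsPrimitiveRoot (Complex.exp (2 * Real.pi * Complex.I / (Module.finrank ℚ F : ℕ)))
      (Module.finrank ℚ F) :=
  Complex.isPrimitiveRoot_exp _ Module.finrank_pos.ne'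

/-- one element suffices -/
lemma zagier_of_element (hT : T.IsKnown' n) (h : ∀ E : IntermediateField ℚ F, E ≠ ⊤ → Zagier n E)
    (hF : HasElement n F) : Zagier n F := by
  obtain ⟨σ, γ, hγ, α, hα, hs⟩ := hF
  by_contra hcon
  obtain ⟨U, hU, hne, hf, h1, h2⟩ := free_of_not hT h hcon
  obtain ⟨x, hx⟩ := hT.polylog α hα
  rw [charSum_eq σ γ hx] at hs
  have hm : 0 < Module.finrank ℚ F := Module.finrank_pos
  have hγm : γ ^ Module.finrank ℚ F = 1 := by
    rw [← orderOf_gen hγ]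
    exact pow_orderOf_eq_one γ
  have hγd : ∀ d, 0 < d → d < Module.finrank ℚ F → γ ^ d ≠ 1 := by
    intro d hd hd' h0
    rw [← orderOf_gen hγ] at hd'
    exact absurd (Nat.le_of_dvd hd (orderOf_dvd_of_pow_eq_one h0)) (not_le.2 hd')
  obtain ⟨u, hu, hu'⟩ := exists_S_ne hT hm σ hγm hγd (exists_emb hγ σ) (prim F) hU hf hne
  refine hu' (mult_one hT σ hγm (exists_emb hγ σ) (prim F).pow_eq_one ((prim F).ne_zero hm.ne')
    (W := polySpace T n F) (U := U) (fun g w hw => map_isPoly hT _ hw) hU h1 h2 hu (w := x) ?_ hs)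
  refine ⟨1, one_ne_zero, α, hα, fun τ => ?_⟩
  rw [Int.cast_one, one_smul, hx]

/-- there is an element of `K(F)` whose sum does not vanish -/
lemma exists_S_of_parity (hT : T.IsKnown' n) (hn0 : 0 < n) {γ : F ≃ₐ[ℚ] F} (hγ : IsGenerator γ)
    (hp : Parity n F) (σ : F →+* ℂ) {ω : ℂ} (hω : IsPrimitiveRoot ω (Module.finrank ℚ F)) :
    ∃ x : T.K F, S T (Module.finrank ℚ F) σ γ ω x ≠ 0 := by
  by_contra hcon
  have hz : ∀ x : T.K F, S T (Module.finrank ℚ F) σ γ ω x = 0 := by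
    intro x
    by_contra h
    exact hcon ⟨x, h⟩
  have hm : 0 < Module.finrank ℚ F := Module.finrank_pos
  have hω0 : ω ≠ 0 := hω.ne_zero hm.ne'
  have hord := orderOf_gen hγ
  -- the exponent of an embedding
  choose e he using exists_emb hγ σ
  have hinj : ∀ i j : ℕ, σ.comp ((γ ^ i : F ≃ₐ[ℚ] F) : F →+* F) =
      σ.comp ((γ ^ j : F ≃ₐ[ℚ] F) : F →+* F) → ω ^ i = ω ^ j := by
    intro i j hij
    have h1 : γ ^ i = γ ^ j := by
      refine AlgEquiv.ext fun x => σ.injective ?_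
      exact RingHom.congr_fun hij x
    rw [pow_eq_pow_iff_modEq, hord] at h1
    rw [pow_eq_pow_mod i hω.pow_eq_one, pow_eq_pow_mod j hω.pow_eq_one]
    exact congrArg (fun k => ω ^ k) h1
  obtain ⟨b, hb, -⟩ := hT.borel F
  obtain ⟨c, hc⟩ : ∃ c : Idx n F → ℂ, ∀ v : Idx n F,
      ∑ w, c w * (T.reg v.1.embedding (b w) : ℂ) = (ω ^ e v.1.embedding)⁻¹ := by
    have h1 : ((Matrix.of fun w v : Idx n F => T.reg v.1.embedding (b w)).map
        (Complex.ofRealHom)).det ≠ 0 := by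
      have h2 := RingHom.map_det Complex.ofRealHom
        (Matrix.of fun w v : Idx n F => T.reg v.1.embedding (b w))
      rw [RingHom.mapMatrix_apply] at h2
      rw [← h2]
      show ((_ : ℝ) : ℂ) ≠ 0
      exact_mod_cast hb
    set M := (Matrix.of fun w v : Idx n F => T.reg v.1.embedding (b w)).map
        (Complex.ofRealHom) with hM
    refine ⟨Matrix.vecMul (fun v => (ω ^ e v.1.embedding)⁻¹) M⁻¹, fun v => ?_⟩
    have h3 : Matrix.vecMul (Matrix.vecMul (fun v : Idx n F => (ω ^ e v.1.embedding)⁻¹) M⁻¹) M =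
        fun v : Idx n F => (ω ^ e v.1.embedding)⁻¹ := by
      rw [Matrix.vecMul_vecMul, Matrix.nonsing_inv_mul _ (isUnit_iff_ne_zero.2 h1), Matrix.vecMul_one]
    exact congrFun h3 v
  -- the values at all embeddings
  have hval : ∀ τ : F →+* ℂ, ∑ w, c w * (T.reg τ (b w) : ℂ) = (ω ^ e τ)⁻¹ := by
    have hplace : ∀ τ : F →+* ℂ, (InfinitePlace.mk τ).embedding = τ ∨
        (InfinitePlace.mk τ).embedding = conj τ := fun τ => by
      rcases InfinitePlace.embedding_mk_eq τ with h | h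
      · exact Or.inl h
      · exact Or.inr h
    intro τ
    rcases Nat.even_or_odd n with hn | hn
    · obtain ⟨c0, hc0, hcc⟩ := hp.2 hn
      have hcx : (InfinitePlace.mk τ).IsComplex := by
        rw [InfinitePlace.isComplex_mk_iff]
        intro hreal
        have h1 : conj τ = τ := hreal
        refine hc0 (AlgEquiv.ext fun x => τ.injective ?_)
        have h2 : τ (c0 x) = conj τ x := RingHom.congr_fun (hcc τ) x
        rw [h2, h1]
        rfl
      have h3 := hc ⟨InfinitePlace.mk τ, Or.inr hcx⟩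
      rcases hplace τ with h | h
      · simp only [h] at h3
        exact h3
      · simp only [h] at h3
        have h4 : ∀ w, (T.reg (conj τ) (b w) : ℂ) = -(T.reg τ (b w) : ℂ) := by
          intro w
          rw [hT.conj_reg, (Nat.Even.sub_odd hn0 hn odd_one).neg_one_pow]
          push_cast
          ring
        simp only [h4, mul_neg, Finset.sum_neg_distrib] at h3
        obtain ⟨s, hs⟩ := exists_pow hγ c0
        -- `ω ^ s = -1`
        have hsq : c0 * c0 = 1 := by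
          refine AlgEquiv.ext fun x => τ.injective ?_
          have h1 : ∀ y, τ (c0 y) = conj τ y := fun y => RingHom.congr_fun (hcc τ) y
          show τ (c0 (c0 x)) = τ x
          rw [h1]
          show (starRingEnd ℂ) (τ (c0 x)) = τ x
          rw [h1]
          exact Complex.conj_conj _
        have hs1 : ω ^ s = -1 := by
          have h5 : ω ^ (s * 2) = 1 := by
            have h6 : γ ^ (s * 2) = 1 := by rw [pow_mul, ← hs, sq, hsq]
            rw [← orderOf_dvd_iff_pow_eq_one] at h6 ⊢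
            rwa [← hω.eq_orderOf, ← hord]
          have h6 : ω ^ s ≠ 1 := by
            intro h7
            rw [← orderOf_dvd_iff_pow_eq_one, ← hω.eq_orderOf, ← hord, orderOf_dvd_iff_pow_eq_one,
              ← hs] at h7
            exact hc0 h7
          rw [pow_mul, sq] at h5
          exact (mul_self_eq_one_iff.1 h5).resolve_left h6
        have h7 : ω ^ e (conj τ) = ω ^ (e τ + s) := by
          refine hinj _ _ ?_
          rw [← he (conj τ), ← hcc τ]
          conv_lhs => rw [he τ]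
          rw [hs, pow_add]
          rfl
        rw [h7, pow_add, hs1, mul_neg_one, inv_neg, neg_inj] at h3
        exact h3
    · have h3 := hc ⟨InfinitePlace.mk τ, Or.inl hn⟩
      rcases hplace τ with h | h
      · simp only [h] at h3
        exact h3
      · rw [hp.1 hn τ] at h
        simp only [h] at h3
        exact h3
  have h1 : ∑ w, c w * S T (Module.finrank ℚ F) σ γ ω (b w) = (Module.finrank ℚ F : ℂ) := by
    unfold S
    simp only [Finset.mul_sum]
    rw [Finset.sum_comm]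
    have h2 : ∀ k ∈ Finset.range (Module.finrank ℚ F),
        ∑ w, c w * (ω ^ k * (T.reg (σ.comp ((γ ^ k : F ≃ₐ[ℚ] F) : F →+* F)) (b w) : ℂ)) = 1 := by
      intro k _
      have h3 := hval (σ.comp ((γ ^ k : F ≃ₐ[ℚ] F) : F →+* F))
      have h4 : ω ^ e (σ.comp ((γ ^ k : F ≃ₐ[ℚ] F) : F →+* F)) = ω ^ k :=
        hinj _ _ (he (σ.comp ((γ ^ k : F ≃ₐ[ℚ] F) : F →+* F))).symm
      rw [h4] at h3
      calc ∑ w, c w * (ω ^ k * (T.reg (σ.comp ((γ ^ k : F ≃ₐ[ℚ] F) : F →+* F)) (b w) : ℂ))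
          = ω ^ k * ∑ w, c w * (T.reg (σ.comp ((γ ^ k : F ≃ₐ[ℚ] F) : F →+* F)) (b w) : ℂ) := by
            rw [Finset.mul_sum]
            exact Finset.sum_congr rfl fun w _ => by ring
        _ = 1 := by rw [h3, mul_inv_cancel₀ (pow_ne_zero _ hω0)]
    rw [Finset.sum_congr rfl h2, Finset.sum_const, Finset.card_range, nsmul_eq_mul, mul_one]
  rw [Finset.sum_eq_zero fun w _ => by rw [hz, mul_zero]] at h1
  exact absurd h1.symm (by exact_mod_cast hm.ne')

/-- the element exists when the conjecture holds -/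
lemma element_of_zagier (hT : T.IsKnown' n) (hn0 : 0 < n) (hF : Zagier n F) {γ : F ≃ₐ[ℚ] F}
    (hγ : IsGenerator γ) (hp : Parity n F) (σ : F →+* ℂ) :
    ∃ α ∈ Ker n F, charSum n σ γ α ≠ 0 := by
  obtain ⟨x, hx⟩ := exists_S_of_parity hT hn0 hγ hp σ (prim F)
  obtain ⟨N, hN, α, hα, h⟩ := (zagier_iff hT F).1 hF x
  refine ⟨α, hα, ?_⟩
  rw [charSum_eq σ γ h, S_smul]
  exact mul_ne_zero (by exact_mod_cast hN) hx

/-- cyclic fields -/
lemma cyclic_iff (hT : T.IsKnown' n) (hn0 : 0 < n) (hc : ∃ γ : F ≃ₐ[ℚ] F, IsGenerator γ)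
    (hp : Parity n F) (h : ∀ E : IntermediateField ℚ F, E ≠ ⊤ → Zagier n E) :
    Zagier n F ↔ HasElement n F := by
  refine ⟨fun hF => ?_, fun hF => zagier_of_element hT h hF⟩
  obtain ⟨γ, hγ⟩ := hc
  obtain ⟨σ⟩ : Nonempty (F →+* ℂ) := inferInstance
  exact ⟨σ, γ, hγ, element_of_zagier hT hn0 hF hγ hp σ⟩

/-- abelian fields -/
lemma abelian_iff (hT : T.IsKnown' n) (hn0 : 0 < n) :
    (∀ (F : Type) [Field F] [NumberField F], IsAbelianGalois ℚ F → Zagier n F) ↔
      ∀ (F : Type) [Field F] [NumberField F], (∃ γ : F ≃ₐ[ℚ] F, IsGenerator γ) → Parity n F →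
        HasElement n F := by
  constructor
  · intro h F _ _ hc hp
    obtain ⟨γ, hγ⟩ := hc
    obtain ⟨σ⟩ : Nonempty (F →+* ℂ) := inferInstance
    have hab : IsAbelianGalois ℚ F :=
      { toIsGalois := hγ.1
        is_comm := ⟨fun a b => by
          obtain ⟨i, rfl⟩ := exists_pow hγ a
          obtain ⟨j, rfl⟩ := exists_pow hγ b
          rw [← pow_add, ← pow_add, add_comm]⟩ }
    exact ⟨σ, γ, hγ, element_of_zagier hT hn0 (h F hab) hγ hp σ⟩
  · intro h
    refine induct hT hn0 (fun F _ _ => IsAbelianGalois ℚ F)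
      (fun F _ _ hF E => IsAbelianGalois.tower_bot ℚ E F) fun F _ _ hF hE hred => ?_
    have hG : IsGalois ℚ F := hF.toIsGalois
    have hcomm : ∀ a b : F ≃ₐ[ℚ] F, a * b = b * a := fun a b => hF.is_comm.comm a b
    have hcyc : IsCyclic (⊤ : Subgroup (F ≃ₐ[ℚ] F)) := hred.cyclic ⊤ fun a _ b _ => hcomm a b
    obtain ⟨γ, hγ⟩ := hcyc.exists_generator
    refine zagier_of_element hT hE (h F ⟨γ, hG, fun g => ?_⟩
      ⟨hred.galois_odd hG, hred.galois_even hG⟩)
    obtain ⟨k, hk⟩ := Subgroup.mem_zpowers_iff.1 (hγ ⟨g, Subgroup.mem_top g⟩)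
    refine Subgroup.mem_zpowers_iff.2 ⟨k, ?_⟩
    exact congrArg Subtype.val hk

end

end Pool.Agent.Q219.ZG
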