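import Pool.Agent.Q219.ZG.Lift

/-!
# Functoriality of the groups `B_n(F)` and of the kernels of `δ_n`
-/

set_option autoImplicit false

namespace Pool.Agent.Q219.ZG

open GonP NumberField
open scoped TensorProduct nonZeroDivisors

section

variable {F L : Type} [Field F] [Field L]

lemma comap_le (f : F →+* L) :
    (Polynomial F)⁰ ≤ Submonoid.comap (Polynomial.mapRingHom f) (Polynomial L)⁰ :=
  nonZeroDivisors_le_comap_nonZeroDivisors_of_injective _ (Polynomial.map_injective f f.injective)

/-- `F(t) → L(t)` -/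
noncomputable def ratMap (f : F →+* L) : RatFunc F →+* RatFunc L :=
  RatFunc.mapRingHom (Polynomial.mapRingHom f) (comap_le f)

lemma ratMap_div (f : F →+* L) (p q : Polynomial F) :
    ratMap f (algebraMap _ _ p / algebraMap _ _ q) =
      algebraMap _ (RatFunc L) (p.map f) / algebraMap _ (RatFunc L) (q.map f) :=
  RatFunc.map_apply_div (Polynomial.mapRingHom f) (comap_le f) p q

open Classical in
lemma spec_div {t0 : L} {r : RatFunc L} {p q : Polynomial L} (hq : q ≠ 0)
    (hr : r = algebraMap _ _ p / algebraMap _ _ q) (h : p.eval t0 ≠ 0 ∨ q.eval t0 ≠ 0) :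
    spec t0 (some r) = if q.eval t0 = 0 then none else some (p.eval t0 / q.eval t0) := by
  have h1 : r.num * q = p * r.denom := (RatFunc.num_mul_eq_mul_denom_iff hq).2 hr
  have h2 := congrArg (Polynomial.eval t0) h1
  rw [Polynomial.eval_mul, Polynomial.eval_mul] at h2
  show (if r.denom.eval t0 = 0 then none else some (r.num.eval t0 / r.denom.eval t0)) = _
  by_cases hq0 : q.eval t0 = 0
  · have hp : p.eval t0 ≠ 0 := h.resolve_right (fun h => h hq0)
    rw [hq0, mul_zero] at h2
    have h3 : r.denom.eval t0 = 0 := (mul_eq_zero.1 h2.symm).resolve_left hp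
    rw [if_pos h3, if_pos hq0]
  · have h3 : r.denom.eval t0 ≠ 0 := by
      have hdvd : r.denom ∣ q := by
        rw [hr]
        exact RatFunc.denom_div_dvd p q
      obtain ⟨s, hs⟩ := hdvd
      intro h0
      rw [hs, Polynomial.eval_mul, h0, zero_mul] at hq0
      exact hq0 rfl
    rw [if_neg h3, if_neg hq0, (div_eq_div_iff h3 hq0).2 h2]

open Classical in
lemma spec_mapP (f : F →+* L) (t0 : F) (x : P1 (RatFunc F)) :
    spec (f t0) (mapP (ratMap f) x) = mapP f (spec t0 x) := by
  cases x with
  | none => rfl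
  | some r =>
    have hr : ratMap f r = algebraMap _ (RatFunc L) (r.num.map f) /
        algebraMap _ (RatFunc L) (r.denom.map f) := by
      conv_lhs => rw [← RatFunc.num_div_denom r]
      exact ratMap_div f _ _
    have hq : r.denom.map f ≠ 0 := by
      rw [Polynomial.map_ne_zero_iff f.injective]
      exact RatFunc.denom_ne_zero r
    have hev : ∀ p : Polynomial F, (p.map f).eval (f t0) = f (p.eval t0) := fun p => by
      rw [Polynomial.eval_map_apply]
    have hne : (r.num.map f).eval (f t0) ≠ 0 ∨ (r.denom.map f).eval (f t0) ≠ 0 := by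
      obtain ⟨a, b, hab⟩ := RatFunc.isCoprime_num_denom r
      by_contra hcon
      rw [not_or, not_not, not_not, hev, hev, map_eq_zero, map_eq_zero] at hcon
      have h2 := congrArg (Polynomial.eval t0) hab
      rw [Polynomial.eval_add, Polynomial.eval_mul, Polynomial.eval_mul, hcon.1, hcon.2,
        Polynomial.eval_one, mul_zero, mul_zero, add_zero] at h2
      exact zero_ne_one h2
    have h1 := spec_div (t0 := f t0) hq hr hne
    have h2 : spec t0 (some r) = if r.denom.eval t0 = 0 then none else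
      some (r.num.eval t0 / r.denom.eval t0) := rfl
    have h3 : mapP (ratMap f) (some r) = some (ratMap f r) := rfl
    rw [h3, h1, h2, hev, hev]
    by_cases h0 : r.denom.eval t0 = 0
    · rw [if_pos h0, h0, map_zero, if_pos rfl]
      rfl
    · rw [if_neg h0, if_neg (by rwa [map_eq_zero])]
      show _ = some (f _)
      rw [map_div₀]

/-- `ℤ[P^1_F] → ℤ[P^1_L]` as a homomorphism -/
noncomputable def mapZHom (f : F →+* L) : ZP F →+ ZP L := liftHom (fun x => gen (mapP f x))

lemma mapZHom_apply (f : F →+* L) (α : ZP F) : mapZHom f α = mapZ f α := rfl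

lemma mapZ_gen (f : F →+* L) (x : P1 F) : mapZ f (gen x) = gen (mapP f x) := lift_gen _ x

lemma specZ_mapZ (f : F →+* L) (t0 : F) (α : ZP (RatFunc F)) :
    specZ (f t0) (mapZ (ratMap f) α) = mapZ f (specZ t0 α) := by
  have h : (liftHom (fun r => gen (spec (f t0) r))).comp (mapZHom (ratMap f)) =
      (mapZHom f).comp (liftHom (fun r => gen (spec t0 r))) := by
    refine hom_ext fun x => ?_
    rw [AddMonoidHom.comp_apply, AddMonoidHom.comp_apply, mapZHom_apply, mapZ_gen, liftHom_gen,
      liftHom_gen, mapZHom_apply, mapZ_gen, spec_mapP]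
  exact DFunLike.congr_fun h α

/-- `F^* → L^*` -/
noncomputable def mapU (f : F →+* L) : UV F →+ UV L := (Units.map (f : F →* L)).toAdditive

lemma mapU_cl (f : F →+* L) (x : F) : mapU f (cl x) = cl (f x) := by
  unfold cl
  by_cases h : x = 0
  · rw [dif_pos h, dif_pos (by rw [h, map_zero]), map_zero]
  · rw [dif_neg h, dif_neg (by rwa [map_eq_zero])]
    refine congrArg Additive.ofMul (Units.ext ?_)
    rfl

/-- the map of quotients -/
noncomputable def mapQ (f : F →+* L) (S : AddSubgroup (ZP F)) (S' : AddSubgroup (ZP L))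
    (h : ∀ α ∈ S, mapZ f α ∈ S') : Quo (ZP F) S →+ Quo (ZP L) S' :=
  QuotientAddGroup.map S S' (mapZHom f) h

lemma mapQ_toQuo (f : F →+* L) (S : AddSubgroup (ZP F)) (S' : AddSubgroup (ZP L))
    (h : ∀ α ∈ S, mapZ f α ∈ S') (α : ZP F) :
    mapQ f S S' h (toQuo S α) = toQuo S' (mapZ f α) := rfl

/-- the map of tensor products -/
noncomputable def mapT {A B A' B' : Type} [AddCommGroup A] [AddCommGroup B] [AddCommGroup A']
    [AddCommGroup B'] (u : A →+ A') (v : B →+ B') : Tens A B →+ Tens A' B' :=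
  (TensorProduct.map u.toIntLinearMap v.toIntLinearMap : A ⊗[ℤ] B →ₗ[ℤ] A' ⊗[ℤ] B').toAddMonoidHom

lemma mapT_tm {A B A' B' : Type} [AddCommGroup A] [AddCommGroup B] [AddCommGroup A']
    [AddCommGroup B'] (u : A →+ A') (v : B →+ B') (a : A) (b : B) :
    mapT u v (tm a b) = tm (u a) (v b) :=
  TensorProduct.map_tmul _ _ a b

lemma AS_map (f : F →+* L) (S : AddSubgroup (ZP F)) (S' : AddSubgroup (ZP L))
    (h : ∀ α ∈ S, mapZ f α ∈ S') {α : ZP F} (hα : α ∈ AS F S) : mapZ f α ∈ AS L S' := by
  have h1 : (liftHom (fun x : P1 L => match x with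
      | none => (0 : Tens (Quo (ZP L) S') (UV L))
      | some y => tm (toQuo S' (gen (some y))) (cl y))).comp (mapZHom f) =
      (mapT (mapQ f S S' h) (mapU f)).comp (liftHom (fun x : P1 F => match x with
      | none => (0 : Tens (Quo (ZP F) S) (UV F))
      | some y => tm (toQuo S (gen (some y))) (cl y))) := by
    refine hom_ext fun x => ?_
    rw [AddMonoidHom.comp_apply, AddMonoidHom.comp_apply, mapZHom_apply, mapZ_gen, liftHom_gen,
      liftHom_gen]
    cases x with
    | none => exact (map_zero _).symm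
    | some y =>
      show tm (toQuo S' (gen (some (f y)))) (cl (f y)) = mapT _ _ (tm (toQuo S (gen (some y))) (cl y))
      rw [mapT_tm, mapQ_toQuo, mapU_cl, mapZ_gen]
      rfl
  have h2 : deltaS L S' (mapZ f α) = mapT (mapQ f S S' h) (mapU f) (deltaS F S α) :=
    DFunLike.congr_fun h1 α
  have h3 : deltaS F S α = 0 := hα
  show deltaS L S' (mapZ f α) = 0
  rw [h2, h3, map_zero]

/-- the map of exterior squares -/
noncomputable def mapE {V V' : Type} [AddCommGroup V] [AddCommGroup V'] (u : V →+ V') :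
    ExtPow V 2 →+ ExtPow V' 2 :=
  (exteriorPower.map 2 u.toIntLinearMap : ⋀[ℤ]^2 V →ₗ[ℤ] ⋀[ℤ]^2 V').toAddMonoidHom

lemma mapE_wedge {V V' : Type} [AddCommGroup V] [AddCommGroup V'] (u : V →+ V') (a b : V) :
    mapE u (wedge ![a, b]) = wedge ![u a, u b] := by
  have h := exteriorPower.map_apply_ιMulti (n := 2) u.toIntLinearMap ![a, b]
  have h1 : (u.toIntLinearMap ∘ ![a, b]) = ![u a, u b] := by
    funext i
    fin_cases i <;> rfl
  rw [h1] at h
  exact h

lemma A2_map (f : F →+* L) {α : ZP F} (hα : α ∈ A2 F) : mapZ f α ∈ A2 L := by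
  have h1 : (liftHom (fun x : P1 L => match x with
      | none => (0 : ExtPow (UV L) 2)
      | some x => wedge ![cl (1 - x), cl x])).comp (mapZHom f) =
      (mapE (mapU f)).comp (liftHom (fun x : P1 F => match x with
      | none => (0 : ExtPow (UV F) 2)
      | some x => wedge ![cl (1 - x), cl x])) := by
    refine hom_ext fun x => ?_
    rw [AddMonoidHom.comp_apply, AddMonoidHom.comp_apply, mapZHom_apply, mapZ_gen, liftHom_gen,
      liftHom_gen]
    cases x with
    | none => exact (map_zero _).symm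
    | some y =>
      show wedge ![cl (1 - f y), cl (f y)] = mapE _ (wedge ![cl (1 - y), cl y])
      rw [mapE_wedge, mapU_cl, mapU_cl, map_sub, map_one]
  have h2 : delta2 L (mapZ f α) = mapE (mapU f) (delta2 F α) := DFunLike.congr_fun h1 α
  have h3 : delta2 F α = 0 := hα
  show delta2 L (mapZ f α) = 0
  rw [h2, h3, map_zero]

lemma relSpan_map (f : F →+* L) (A : Set (ZP (RatFunc F))) (A' : Set (ZP (RatFunc L)))
    (h : ∀ α ∈ A, mapZ (ratMap f) α ∈ A') {β : ZP F} (hβ : β ∈ relSpan F A) :
    mapZ f β ∈ relSpan L A' := by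
  have h1 : relSpan F A ≤ (relSpan L A').comap (mapZHom f) := by
    unfold relSpan
    rw [AddSubgroup.closure_le]
    rintro x (hx | ⟨α, hα, rfl⟩)
    · refine AddSubgroup.subset_closure (Or.inl ?_)
      rcases hx with rfl | rfl
      · left
        rw [mapZHom_apply, mapZ_gen]
        show gen (some (f 0)) = _
        rw [map_zero]
      · right
        rw [mapZHom_apply, mapZ_gen]
        rfl
    · refine AddSubgroup.subset_closure (Or.inr ⟨mapZ (ratMap f) α, h α hα, ?_⟩)
      have h0 := specZ_mapZ f 0 α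
      have h1 := specZ_mapZ f 1 α
      rw [map_zero] at h0
      rw [map_one] at h1
      show specZ 0 (mapZ (ratMap f) α) - specZ 1 (mapZ (ratMap f) α) = mapZHom f (specZ 0 α - specZ 1 α)
      rw [h0, h1, map_sub]
      rfl
  exact h1 hβ

end

lemma RR_map (k : ℕ) : ∀ {F L : Type} [Field F] [Field L] (f : F →+* L), ∀ α ∈ RR k F,
    mapZ f α ∈ RR k L := by
  induction k with
  | zero =>
    intro F L _ _ f α hα
    exact relSpan_map f _ _ (fun β hβ => A2_map (ratMap f) hβ) hα
  | succ k ih =>
    intro F L _ _ f α hα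
    exact relSpan_map f _ _ (fun β hβ => AS_map (ratMap f) _ _ (ih (ratMap f)) hβ) hα

/-- `ker δ_n` is functorial -/
lemma Ker_map {n : ℕ} (hn : 3 ≤ n) {F L : Type} [Field F] [Field L] (f : F →+* L) {α : ZP F}
    (hα : α ∈ Ker n F) : mapZ f α ∈ Ker n L := by
  refine AS_map f _ _ ?_ hα
  have h1 : ¬ (n - 1 ≤ 1) := by omega
  unfold R
  rw [if_neg h1, if_neg h1]
  exact RR_map _ f

lemma inj_of_borel {T : KTheory} {n : ℕ} (hT : T.IsKnown n) {F : Type} [Field F] [NumberField F]
    (x : T.K F) (hx : ∀ σ, T.reg σ x = 0) : x = 0 := by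
  obtain ⟨b, hb, -⟩ := hT.borel F
  have h1 : (fun w => ((b.repr x w : ℚ) : ℝ)) = 0 := by
    refine Matrix.eq_zero_of_vecMul_eq_zero hb (funext fun v => ?_)
    show ∑ w, ((b.repr x w : ℚ) : ℝ) * T.reg v.1.embedding (b w) = 0
    rw [← hx v.1.embedding]
    conv_rhs => rw [← b.sum_repr x]
    rw [map_sum]
    refine Finset.sum_congr rfl fun w _ => ?_
    rw [map_smul, Rat.smul_def]
  rw [← b.sum_repr x]
  refine Finset.sum_eq_zero fun w _ => ?_
  have h2 : ((b.repr x w : ℚ) : ℝ) = 0 := congrFun h1 w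
  have h3 : b.repr x w = 0 := by exact_mod_cast h2
  rw [h3, zero_smul]

end Pool.Agent.Q219.ZG
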