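import Pool.Agent.Q219.ZG.Defs

/-!
# Linear maps on `ℤ[P^1_F]`
-/

set_option autoImplicit false

namespace Pool.Agent.Q219.ZG

open GonP NumberField

section

variable {F A : Type} [AddCommGroup A]

lemma lift_add (f : P1 F → A) (α β : ZP F) : lift f (α + β) = lift f α + lift f β := by
  unfold lift
  exact Finsupp.sum_add_index' (fun x => zero_smul ℤ (f x)) (fun x m n => add_smul m n (f x))

lemma lift_zero (f : P1 F → A) : lift f 0 = 0 := Finsupp.sum_zero_index

lemma lift_gen (f : P1 F → A) (x : P1 F) : lift f (gen x) = f x := by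
  unfold lift gen
  exact (Finsupp.sum_single_index (h := fun x n => n • f x) (zero_smul ℤ _)).trans (one_smul ℤ _)

/-- the homomorphism -/
noncomputable def liftHom (f : P1 F → A) : ZP F →+ A where
  toFun := lift f
  map_zero' := lift_zero f
  map_add' := lift_add f

lemma liftHom_gen (f : P1 F → A) (x : P1 F) : liftHom f (gen x) = f x := lift_gen f x

lemma hom_ext {f g : ZP F →+ A} (h : ∀ x, f (gen x) = g (gen x)) : f = g := by
  refine Finsupp.addHom_ext fun x n => ?_
  have e : (Finsupp.single x n : ZP F) = n • gen x := by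
    unfold gen
    rw [Finsupp.smul_single, smul_eq_mul, mul_one]
  rw [e, map_zsmul, map_zsmul, h]

lemma lift_zsmul (f : P1 F → A) (n : ℤ) (α : ZP F) : lift f (n • α) = n • lift f α :=
  map_zsmul (liftHom f) n α

lemma lift_neg (f : P1 F → A) (α : ZP F) : lift f (-α) = -lift f α :=
  map_neg (liftHom f) α

end

section

variable {F L M : Type} [Field F] [Field L] [Field M]

lemma mapP_comp (f : F →+* L) (g : L →+* M) (x : P1 F) : mapP g (mapP f x) = mapP (g.comp f) x := by
  cases x <;> rfl

lemma value_mapZ (n : ℕ) (f : F →+* L) (σ : L →+* ℂ) (α : ZP F) :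
    value n σ (mapZ f α) = value n (σ.comp f) α := by
  have h : (liftHom (fun x => polylog n (mapP σ x))).comp (liftHom (fun x => gen (mapP f x))) =
      liftHom (fun x => polylog n (mapP (σ.comp f) x)) := by
    refine hom_ext fun x => ?_
    rw [AddMonoidHom.comp_apply, liftHom_gen, liftHom_gen, liftHom_gen, mapP_comp]
  exact DFunLike.congr_fun h α

lemma zero_mem_Ker (n : ℕ) : (0 : ZP F) ∈ Ker n F := lift_zero _

lemma add_mem_Ker (n : ℕ) {α β : ZP F} (hα : α ∈ Ker n F) (hβ : β ∈ Ker n F) : α + β ∈ Ker n F := by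
  have h1 : deltaS F (R (n - 1) F) α = 0 := hα
  have h2 : deltaS F (R (n - 1) F) β = 0 := hβ
  show deltaS F (R (n - 1) F) (α + β) = 0
  unfold deltaS at h1 h2 ⊢
  rw [lift_add, h1, h2, add_zero]

lemma zsmul_mem_Ker (n : ℕ) (m : ℤ) {α : ZP F} (hα : α ∈ Ker n F) : m • α ∈ Ker n F := by
  have h1 : deltaS F (R (n - 1) F) α = 0 := hα
  show deltaS F (R (n - 1) F) (m • α) = 0
  unfold deltaS at h1 ⊢
  rw [lift_zsmul, h1, smul_zero]

lemma value_add (n : ℕ) (σ : F →+* ℂ) (α β : ZP F) : value n σ (α + β) = value n σ α + value n σ β :=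
  lift_add _ α β

lemma value_zsmul (n : ℕ) (σ : F →+* ℂ) (m : ℤ) (α : ZP F) : value n σ (m • α) = m * value n σ α := by
  have h := lift_zsmul (fun x => polylog n (mapP σ x)) m α
  rw [zsmul_eq_mul] at h
  exact h

lemma value_zero (n : ℕ) (σ : F →+* ℂ) : value n σ 0 = 0 := lift_zero _

end

end Pool.Agent.Q219.ZG
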