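import Mathlib

/-!
# Rational representations of finite groups
-/

set_option autoImplicit false

namespace Pool.Agent.Q219.ZG

section

variable {G V : Type} [Group G] [Finite G] [AddCommGroup V] [Module ℚ V]

/-- a stable complement -/
lemma exists_compl (ρ : G →* (V →ₗ[ℚ] V)) {W : Submodule ℚ V}
    (hW : ∀ g, ∀ w ∈ W, ρ g w ∈ W) :
    ∃ U : Submodule ℚ V, (∀ g, ∀ u ∈ U, ρ g u ∈ U) ∧ W ⊓ U = ⊥ ∧ W ⊔ U = ⊤ := by
  have : Fintype G := Fintype.ofFinite G
  obtain ⟨C, hC⟩ := W.exists_isCompl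
  obtain ⟨π, hπ⟩ : ∃ π : V →ₗ[ℚ] V, (∀ v, π v ∈ W) ∧ ∀ w ∈ W, π w = w :=
    ⟨W.subtype ∘ₗ W.projectionOnto C hC, fun v => (W.projectionOnto C hC v).2, fun w hw => by
      show ((W.projectionOnto C hC w : W) : V) = w
      rw [Submodule.projectionOnto_apply_left hC ⟨w, hw⟩]⟩
  set p : V →ₗ[ℚ] V := (Fintype.card G : ℚ)⁻¹ • ∑ g : G, ρ g ∘ₗ π ∘ₗ ρ g⁻¹ with hp
  have hpa : ∀ v, p v = (Fintype.card G : ℚ)⁻¹ • ∑ g : G, ρ g (π (ρ g⁻¹ v)) := by
    intro v
    rw [hp, LinearMap.smul_apply, LinearMap.sum_apply]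
    rfl
  have hpW : ∀ v, p v ∈ W := by
    intro v
    rw [hpa]
    exact W.smul_mem _ (W.sum_mem fun g _ => hW g _ (hπ.1 _))
  have hpw : ∀ w ∈ W, p w = w := by
    intro w hw
    rw [hpa]
    have h1 : ∀ g : G, ρ g (π (ρ g⁻¹ w)) = w := by
      intro g
      rw [hπ.2 _ (hW _ _ hw)]
      show (ρ g * ρ g⁻¹) w = w
      rw [← map_mul, mul_inv_cancel, map_one]
      rfl
    rw [Finset.sum_congr rfl fun g _ => h1 g, Finset.sum_const, Finset.card_univ, ← Nat.cast_smul_eq_nsmul ℚ,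
      smul_smul, inv_mul_cancel₀ (by
        have : 0 < Fintype.card G := Fintype.card_pos
        positivity), one_smul]
  have hpc : ∀ h v, p (ρ h v) = ρ h (p v) := by
    intro h v
    rw [hpa, hpa, map_smul, map_sum]
    congr 1
    refine Fintype.sum_equiv (Equiv.mulLeft h⁻¹) _ _ fun g => ?_
    have e1 : ρ h (ρ (h⁻¹ * g) (π (ρ (h⁻¹ * g)⁻¹ v))) = (ρ h * ρ (h⁻¹ * g)) (π (ρ (h⁻¹ * g)⁻¹ v)) := rfl
    have e2 : ρ g⁻¹ (ρ h v) = (ρ g⁻¹ * ρ h) v := rfl
    show ρ g (π (ρ g⁻¹ (ρ h v))) = ρ h (ρ (h⁻¹ * g) (π (ρ (h⁻¹ * g)⁻¹ v)))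
    rw [e1, e2, ← map_mul, ← map_mul]
    congr 2
    · congr 1
      group
    · congr 2
      group
  refine ⟨LinearMap.ker p, fun g u hu => ?_, ?_, ?_⟩
  · rw [LinearMap.mem_ker] at hu ⊢
    rw [hpc, hu, map_zero]
  · rw [Submodule.eq_bot_iff]
    rintro x ⟨hx, hx'⟩
    have h1 : p x = 0 := hx'
    rw [← hpw x hx, h1]
  · rw [Submodule.eq_top_iff']
    intro x
    rw [Submodule.mem_sup]
    refine ⟨p x, hpW x, x - p x, ?_, by abel⟩
    rw [LinearMap.mem_ker, map_sub, hpw _ (hpW x), sub_self]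

end

section

variable {B V : Type} [CommGroup B] [Finite B] [AddCommGroup V] [Module ℚ V]
  [FiniteDimensional ℚ V]

/-- a finite abelian group which acts freely on the nonzero vectors is cyclic -/
lemma cyclic_of_free [Nontrivial V] (ρ : B →* Module.End ℚ V)
    (hfree : ∀ b v, ρ b v = v → b = 1 ∨ v = 0) : IsCyclic B := by
  have hcomm : ∀ a ∈ Set.range ρ, ∀ b ∈ Set.range ρ, a * b = b * a := by
    rintro _ ⟨a, rfl⟩ _ ⟨b, rfl⟩
    rw [← map_mul, mul_comm, map_mul]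
  letI : CommRing (Algebra.adjoin ℚ (Set.range ρ)) := Algebra.adjoinCommRingOfComm ℚ hcomm
  let A := Algebra.adjoin ℚ (Set.range ρ)
  have hfin : FiniteDimensional ℚ A := inferInstance
  have hnt : Nontrivial A := inferInstance
  have hunit : ∀ a : A, (∀ v, (a : Module.End ℚ V) v = 0 → v = 0) → IsUnit a := by
    intro a ha
    have hinj : Function.Injective (LinearMap.mulLeft ℚ a) := by
      rw [injective_iff_map_eq_zero]
      intro x hx
      refine Subtype.ext (LinearMap.ext fun v => ?_)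
      refine ha _ ?_
      have h1 : ((a * x : A) : Module.End ℚ V) v = 0 := by
        have h2 : a * x = 0 := hx
        rw [h2]
        rfl
      exact h1
    obtain ⟨x, hx⟩ := (LinearMap.injective_iff_surjective.1 hinj) 1
    exact IsUnit.of_mul_eq_one x hx
  obtain ⟨m, hm⟩ := Ideal.exists_maximal A
  let f : B →* A ⧸ m := ((Ideal.Quotient.mk m : A →+* A ⧸ m) : A →* A ⧸ m).comp
    { toFun := fun b => ⟨ρ b, Algebra.subset_adjoin ⟨b, rfl⟩⟩
      map_one' := Subtype.ext (map_one ρ)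
      map_mul' := fun a b => Subtype.ext (map_mul ρ a b) }
  refine isCyclic_of_injective_ringHom f ?_
  rw [injective_iff_map_eq_one]
  intro b hb
  by_contra hb1
  have h1 : (⟨ρ b, Algebra.subset_adjoin ⟨b, rfl⟩⟩ - 1 : A) ∈ m := by
    rw [← Ideal.Quotient.eq_zero_iff_mem, map_sub, map_one, sub_eq_zero]
    exact hb
  refine hm.ne_top (Ideal.eq_top_of_isUnit_mem _ h1 (hunit _ fun v hv => ?_))
  have h2 : ρ b v - v = 0 := hv
  exact (hfree b v (sub_eq_zero.1 h2)).resolve_left hb1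

end

end Pool.Agent.Q219.ZG
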