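import Pool.Agent.Q219.ZG.Descent
import Pool.Agent.Q219.ZG.Lin

/-!
# Zagier's conjecture and Galois groups: the criterion and the reduction
-/

set_option autoImplicit false

namespace Pool.Agent.Q219.ZG

open GonP NumberField

section

variable (T : KTheory) (n : ℕ)

/-- `x` is given by polylogarithms -/
def IsPoly {F : Type} [Field F] [NumberField F] (x : T.K F) : Prop :=
  ∃ N : ℤ, N ≠ 0 ∧ ∃ α ∈ Ker n F, ∀ σ, T.reg σ ((N : ℚ) • x) = value n σ α

/-- the subspace of the elements which are given by polylogarithms -/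
def polySpace (F : Type) [Field F] [NumberField F] : Submodule ℚ (T.K F) where
  carrier := {x | IsPoly T n x}
  zero_mem' := ⟨1, one_ne_zero, 0, zero_mem_Ker n, fun σ => by rw [smul_zero, map_zero, value_zero]⟩
  add_mem' := by
    rintro x y ⟨N, hN, α, hα, h⟩ ⟨M, hM, β, hβ, h'⟩
    refine ⟨N * M, mul_ne_zero hN hM, M • α + N • β,
      add_mem_Ker n (zsmul_mem_Ker n M hα) (zsmul_mem_Ker n N hβ), fun σ => ?_⟩
    rw [value_add, value_zsmul, value_zsmul, ← h, ← h']
    rw [map_smul, map_smul, map_smul, map_add]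
    simp only [Rat.smul_def]
    push_cast
    ring
  smul_mem' := by
    rintro q x ⟨N, hN, α, hα, h⟩
    refine ⟨N * q.den, mul_ne_zero hN (by exact_mod_cast q.den_nz), q.num • α, zsmul_mem_Ker n _ hα,
      fun σ => ?_⟩
    rw [value_zsmul, ← h, smul_smul, map_smul, map_smul]
    simp only [Rat.smul_def]
    have h1 : ((q.den : ℚ) * q) = q.num := Rat.den_mul_eq_num q
    have h2 : ((N * q.den : ℤ) : ℚ) * q = N * q.num := by
      push_cast
      rw [mul_assoc, h1]
    rw [h2]
    push_cast
    ring

end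

section

variable {T : KTheory} {n : ℕ}

lemma mem_polySpace {F : Type} [Field F] [NumberField F] {x : T.K F} :
    x ∈ polySpace T n F ↔ IsPoly T n x := Iff.rfl

lemma factorZ_ne_zero (n : ℕ) (F : Type) [Field F] [NumberField F] : factorZ n F ≠ 0 := by
  unfold factorZ
  refine mul_ne_zero (pow_ne_zero _ Real.pi_ne_zero) (inv_ne_zero ?_)
  rw [Real.sqrt_ne_zero']
  exact abs_pos.2 (by exact_mod_cast discr_ne_zero F)

lemma isMultiple_ne {x : ℂ} {y : ℝ} (h : IsMultiple x y) : x ≠ 0 ↔ y ≠ 0 := by
  obtain ⟨q, hq, rfl⟩ := h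
  rw [Complex.ofReal_ne_zero, mul_ne_zero_iff]
  exact ⟨fun h => h.2, fun h => ⟨by exact_mod_cast hq, h⟩⟩

lemma isMultiple_scale {x : ℂ} {y z : ℝ} (h : IsMultiple x y) (r : ℚ) (hr : r ≠ 0)
    (hz : z = (r : ℝ) * y) : IsMultiple x z := by
  obtain ⟨q, hq, rfl⟩ := h
  refine ⟨q / r, div_ne_zero hq hr, ?_⟩
  congr 1
  rw [hz]
  push_cast
  have : (r : ℝ) ≠ 0 := by exact_mod_cast hr
  field_simp

/-- the criterion -/
lemma zagier_iff (hT : T.IsKnown' n) (F : Type) [Field F] [NumberField F] :
    Zagier n F ↔ ∀ x : T.K F, IsPoly T n x := by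
  obtain ⟨b, hb, hz⟩ := hT.borel F
  constructor
  · rintro ⟨y, hy, hm⟩
    have h1 : dedekindZeta F n ≠ 0 := (isMultiple_ne hz).2 (mul_ne_zero (factorZ_ne_zero n F) hb)
    have h2 := (isMultiple_ne hm).1 h1
    have h3 : (determinant fun w v => value n v.1.embedding (y w)) ≠ 0 := right_ne_zero_of_mul h2
    choose x hx using fun w => hT.polylog (y w) (hy w)
    have hli : LinearIndependent ℚ x := by
      rw [Fintype.linearIndependent_iff]
      intro c hc
      have h4 : (fun w => (c w : ℝ)) = 0 := by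
        refine Matrix.eq_zero_of_vecMul_eq_zero h3 (funext fun v => ?_)
        have h5 := congrArg (T.reg v.1.embedding) hc
        rw [map_sum, map_zero] at h5
        rw [Pi.zero_apply, ← h5]
        show ∑ w, (c w : ℝ) * value n v.1.embedding (y w) = _
        refine Finset.sum_congr rfl fun w _ => ?_
        rw [map_smul, hx, Rat.smul_def]
      intro w
      have h5 : (c w : ℝ) = 0 := congrFun h4 w
      exact_mod_cast h5
    have hfd : FiniteDimensional ℚ (T.K F) := Module.Finite.of_basis b
    have hcard : Fintype.card (Idx n F) = Module.finrank ℚ (T.K F) :=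
      (Module.finrank_eq_card_basis b).symm
    have htop := hli.span_eq_top_of_card_eq_finrank' hcard
    have hle : Submodule.span ℚ (Set.range x) ≤ polySpace T n F := by
      rw [Submodule.span_le]
      rintro _ ⟨w, rfl⟩
      refine ⟨1, one_ne_zero, y w, hy w, fun σ => ?_⟩
      rw [Int.cast_one, one_smul, hx]
    intro z
    have h6 : z ∈ Submodule.span ℚ (Set.range x) := by
      rw [htop]
      exact Submodule.mem_top
    exact hle h6
  · intro h
    choose N hN y hy hv using fun w => h (b w)
    refine ⟨y, hy, ?_⟩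
    refine isMultiple_scale hz (∏ w, (N w : ℚ)) (Finset.prod_ne_zero_iff.2 fun w _ => by
      exact_mod_cast hN w) ?_
    have h1 : (determinant fun w v => value n v.1.embedding (y w)) =
        (∏ w, (N w : ℝ)) * determinant fun w v => T.reg v.1.embedding (b w) := by
      unfold determinant
      rw [← Matrix.det_mul_column]
      congr 1
      ext w v
      show value n v.1.embedding (y w) = (N w : ℝ) * T.reg v.1.embedding (b w)
      rw [← hv, map_smul, Rat.smul_def]
      push_cast
      rfl
    rw [h1]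
    push_cast
    ring

/-- the group of automorphisms acts -/
noncomputable def act (hT : T.IsKnown' n) (F : Type) [Field F] [NumberField F] :
    (F ≃ₐ[ℚ] F) →* Module.End ℚ (T.K F) where
  toFun g := T.map (g : F →+* F)
  map_one' := by
    refine LinearMap.ext fun x => ?_
    rw [← sub_eq_zero]
    refine hT.inj_reg _ fun σ => ?_
    rw [map_sub, hT.map_reg, sub_eq_zero]
    rfl
  map_mul' g h := by
    refine LinearMap.ext fun x => ?_
    rw [← sub_eq_zero]
    refine hT.inj_reg _ fun σ => ?_
    rw [map_sub, hT.map_reg, sub_eq_zero, Module.End.mul_apply, hT.map_reg, hT.map_reg]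
    rfl

lemma act_apply (hT : T.IsKnown' n) {F : Type} [Field F] [NumberField F] (g : F ≃ₐ[ℚ] F) (x : T.K F) :
    act hT F g x = T.map (g : F →+* F) x := rfl

/-- functoriality of the subspace -/
lemma map_isPoly (hT : T.IsKnown' n) {F L : Type} [Field F] [NumberField F] [Field L] [NumberField L]
    (f : F →+* L) {x : T.K F} (hx : IsPoly T n x) : IsPoly T n (T.map f x) := by
  obtain ⟨N, hN, α, hα, h⟩ := hx
  refine ⟨N, hN, mapZ f α, hT.functor f α hα, fun σ => ?_⟩
  rw [← map_smul, hT.map_reg, h, value_mapZ]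

/-- the reduction -/
lemma reduction (hT : T.IsKnown' n) {L : Type} [Field L] [NumberField L]
    (hU : ∀ U : Submodule ℚ (T.K L), (∀ g : L ≃ₐ[ℚ] L, ∀ u ∈ U, T.map (g : L →+* L) u ∈ U) → U ≠ ⊥ →
      ∃ H : Subgroup (L ≃ₐ[ℚ] L), Zagier n (IntermediateField.fixedField H) ∧
        ∃ u ∈ U, u ≠ 0 ∧ ∀ g ∈ H, T.map (g : L →+* L) u = u) : Zagier n L := by
  rw [zagier_iff hT]
  obtain ⟨U, hs, h1, h2⟩ := exists_compl (act hT L) (W := polySpace T n L)
    fun g w hw => map_isPoly hT _ hw
  have h3 : U = ⊥ := by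
    by_contra hne
    obtain ⟨H, hH, u, hu, hu0, hf⟩ := hU U hs hne
    obtain ⟨y, hy⟩ := hT.descent H u hf
    have h4 : u ∈ polySpace T n L := by
      rw [← hy]
      exact map_isPoly hT _ ((zagier_iff hT _).1 hH y)
    have h5 : u ∈ polySpace T n L ⊓ U := ⟨h4, hu⟩
    rw [h1] at h5
    exact hu0 ((Submodule.mem_bot ℚ).1 h5)
  rw [h3, sup_bot_eq] at h2
  intro x
  have h6 : x ∈ polySpace T n L := by
    rw [h2]
    exact Submodule.mem_top
  exact h6

/-- elements fixed by an automorphism `≠ 1` -/
lemma fixed_isPoly (hT : T.IsKnown' n) {L : Type} [Field L] [NumberField L]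
    (h : ∀ E : IntermediateField ℚ L, E ≠ ⊤ → Zagier n E) {g : L ≃ₐ[ℚ] L} (hg1 : g ≠ 1)
    {u : T.K L} (hg : T.map (g : L →+* L) u = u) : IsPoly T n u := by
  have h1 : ∀ k ∈ Subgroup.zpowers g, act hT L k u = u := by
    let S : Subgroup (L ≃ₐ[ℚ] L) :=
      { carrier := {k | act hT L k u = u}
        one_mem' := by
          show act hT L 1 u = u
          rw [map_one]
          rfl
        mul_mem' := by
          intro a b ha hb
          have ha' : act hT L a u = u := ha
          have hb' : act hT L b u = u := hb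
          show act hT L (a * b) u = u
          rw [map_mul, Module.End.mul_apply, hb', ha']
        inv_mem' := by
          intro a ha
          have ha' : act hT L a u = u := ha
          show act hT L a⁻¹ u = u
          calc act hT L a⁻¹ u = act hT L a⁻¹ (act hT L a u) := by rw [ha']
            _ = (act hT L a⁻¹ * act hT L a) u := rfl
            _ = u := by
              rw [← map_mul, inv_mul_cancel, map_one]
              rfl }
    intro k hk
    have h2 : Subgroup.zpowers g ≤ S := by
      rw [Subgroup.zpowers_le]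
      exact hg
    exact h2 hk
  have h2 : Zagier n (IntermediateField.fixedField (Subgroup.zpowers g)) := by
    refine h _ fun htop => ?_
    have h1 := IntermediateField.fixingSubgroup_fixedField (Subgroup.zpowers g)
    rw [htop, IntermediateField.fixingSubgroup_top] at h1
    exact hg1 (Subgroup.zpowers_eq_bot.1 h1.symm)
  obtain ⟨y, hy⟩ := hT.descent (Subgroup.zpowers g) u h1
  rw [← hy]
  exact map_isPoly hT _ ((zagier_iff hT _).1 h2 y)

/-- a counterexample with the conjecture for its proper subfields: a free action -/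
lemma free_of_not (hT : T.IsKnown' n) {L : Type} [Field L] [NumberField L]
    (h : ∀ E : IntermediateField ℚ L, E ≠ ⊤ → Zagier n E) (hL : ¬ Zagier n L) :
    ∃ U : Submodule ℚ (T.K L), (∀ g : L ≃ₐ[ℚ] L, ∀ u ∈ U, T.map (g : L →+* L) u ∈ U) ∧ U ≠ ⊥ ∧
      (∀ g : L ≃ₐ[ℚ] L, ∀ u ∈ U, T.map (g : L →+* L) u = u → g = 1 ∨ u = 0) ∧
      polySpace T n L ⊓ U = ⊥ ∧ polySpace T n L ⊔ U = ⊤ := by
  obtain ⟨U, hs, h1, h2⟩ := exists_compl (act hT L) (W := polySpace T n L)
    fun g w hw => map_isPoly hT _ hw
  refine ⟨U, hs, ?_, ?_, h1, h2⟩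
  · rintro rfl
    rw [sup_bot_eq] at h2
    refine hL ((zagier_iff hT L).2 fun x => ?_)
    have h6 : x ∈ polySpace T n L := by
      rw [h2]
      exact Submodule.mem_top
    exact h6
  · intro g u hu hg
    by_cases hg1 : g = 1
    · exact Or.inl hg1
    · right
      have h5 : u ∈ polySpace T n L ⊓ U := ⟨fixed_isPoly hT h hg1 hg, hu⟩
      rw [h1] at h5
      exact (Submodule.mem_bot ℚ).1 h5

end

end Pool.Agent.Q219.ZG
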