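import Pool.Agent.Q219.ZG.Ab

/-!
# Zagier's conjecture for cyclic fields of prime power degree
-/

set_option autoImplicit false

namespace Pool.Agent.Q219.ZG

open GonP NumberField

section

variable {T : KTheory} {n : ℕ} {F : Type} [Field F] [NumberField F]

lemma gen_pow_card {γ : F ≃ₐ[ℚ] F} (hγ : IsGenerator γ) : γ ^ Module.finrank ℚ F = 1 := by
  rw [← orderOf_gen hγ]
  exact pow_orderOf_eq_one γ

lemma S_sub (m : ℕ) (σ : F →+* ℂ) (γ : F ≃ₐ[ℚ] F) (ω : ℂ) (x y : T.K F) :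
    S T m σ γ ω (x - y) = S T m σ γ ω x - S T m σ γ ω y := by
  have h := S_add (T := T) m σ γ ω (x - y) y
  rw [sub_add_cancel] at h
  rw [h, add_sub_cancel_right]

/-- prime power degree: two different conjugate values -/
lemma element_of_ne (hT : T.IsKnown' n) {γ : F ≃ₐ[ℚ] F} (hγ : IsGenerator γ) {p k : ℕ}
    (hp : p.Prime) (hk : 0 < k) (hdeg : Module.finrank ℚ F = p ^ k) {σ : F →+* ℂ} {α : ZP F}
    (hα : α ∈ Ker n F)
    (hne : value n σ α ≠ value n (σ.comp ((γ ^ p ^ (k - 1) : F ≃ₐ[ℚ] F) : F →+* F)) α) :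
    charSum n σ γ α ≠ 0 := by
  obtain ⟨x, hx⟩ := hT.polylog α hα
  intro h0
  rw [charSum_eq σ γ hx] at h0
  have hm : 0 < Module.finrank ℚ F := Module.finrank_pos
  have hγm := gen_pow_card hγ
  set m := Module.finrank ℚ F with hmdef
  set ζ := Complex.exp (2 * Real.pi * Complex.I / (m : ℕ)) with hζdef
  have hζ : IsPrimitiveRoot ζ m := prim F
  set d := p ^ (k - 1) with hd
  have hpd : p * d = m := by
    rw [hdeg, hd, ← pow_succ']
    congr 1
    omega
  have hy : x - T.map ((γ ^ d : F ≃ₐ[ℚ] F) : F →+* F) x = 0 := by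
    refine eq_zero_of_S hT hm σ hγm (exists_emb hγ σ) hζ fun j => ?_
    have hω : (ζ ^ j) ^ m = 1 := by rw [← pow_mul, mul_comm, pow_mul, hζ.pow_eq_one, one_pow]
    have hsh := S_shift_pow hT σ hγm hω x d
    rw [S_sub]
    by_cases hj : p ∣ j
    · obtain ⟨t, rfl⟩ := hj
      have h2 : (ζ ^ (p * t)) ^ d = 1 := by
        rw [← pow_mul]
        have h3 : p * t * d = m * t := by rw [← hpd]; ring
        rw [h3, pow_mul, hζ.pow_eq_one, one_pow]
      rw [h2, one_mul] at hsh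
      rw [hsh, sub_self]
    · have hcop : j.Coprime m := by
        rw [hdeg]
        exact Nat.Coprime.pow_right k ((Nat.coprime_comm.1 ((Nat.Prime.coprime_iff_not_dvd hp).2 hj)))
      have h2 : S T m σ γ (ζ ^ j) x = 0 :=
        S_conj hT hm σ hγm (exists_emb hγ σ) hζ (hζ.pow_of_coprime j hcop) h0
      rw [h2] at hsh ⊢
      have h3 : (ζ ^ j) ^ d ≠ 0 := pow_ne_zero _ (pow_ne_zero _ (hζ.ne_zero hm.ne'))
      rw [(mul_eq_zero.1 hsh).resolve_left h3, sub_zero]
  refine hne ?_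
  have h4 : x = T.map ((γ ^ d : F ≃ₐ[ℚ] F) : F →+* F) x := sub_eq_zero.1 hy
  have h5 := hT.map_reg ((γ ^ d : F ≃ₐ[ℚ] F) : F →+* F) σ x
  rw [← h4, hx, hx] at h5
  exact h5

lemma prime_power_iff (hT : T.IsKnown' n) (hn0 : 0 < n) {γ : F ≃ₐ[ℚ] F} (hγ : IsGenerator γ)
    {p k : ℕ} (hp : p.Prime) (hk : 0 < k) (hdeg : Module.finrank ℚ F = p ^ k) (hpar : Parity n F)
    (h : ∀ E : IntermediateField ℚ F, E ≠ ⊤ → Zagier n E) :
    Zagier n F ↔ ∃ σ : F →+* ℂ, ∃ α ∈ Ker n F,
      value n σ α ≠ value n (σ.comp ((γ ^ p ^ (k - 1) : F ≃ₐ[ℚ] F) : F →+* F)) α := by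
  constructor
  · intro hz
    obtain ⟨σ⟩ : Nonempty (F →+* ℂ) := inferInstance
    obtain ⟨α, hα, hs⟩ := element_of_zagier hT hn0 hz hγ hpar σ
    by_contra hcon
    obtain ⟨x, hx⟩ := hT.polylog α hα
    rw [charSum_eq σ γ hx] at hs
    have h1 : x - T.map ((γ ^ p ^ (k - 1) : F ≃ₐ[ℚ] F) : F →+* F) x = 0 := by
      refine hT.inj_reg _ fun τ => ?_
      rw [map_sub, hT.map_reg, hx, hx, sub_eq_zero]
      by_contra hne
      exact hcon ⟨τ, α, hα, hne⟩
    have hsh := S_shift_pow hT σ (gen_pow_card hγ) (prim F).pow_eq_one x (p ^ (k - 1))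
    rw [← sub_eq_zero.1 h1] at hsh
    have h2 : Complex.exp (2 * Real.pi * Complex.I / (Module.finrank ℚ F : ℕ)) ^ p ^ (k - 1) = 1 := by
      refine mul_right_cancel₀ hs ?_
      rw [one_mul]
      exact hsh
    have h3 := (prim F).dvd_of_pow_eq_one _ h2
    rw [hdeg, Nat.pow_dvd_pow_iff_le_right hp.one_lt] at h3
    omega
  · rintro ⟨σ, α, hα, hne⟩
    exact zagier_of_element hT h ⟨σ, γ, hγ, α, hα, element_of_ne hT hγ hp hk hdeg hα hne⟩

/-- the conjecture for `n` even and totally real fields -/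
lemma zagier_of_real (hT : T.IsKnown' n) (hn0 : 0 < n) (hn : Even n) {E : Type} [Field E]
    [NumberField E] (h : TotallyReal E) : Zagier n E := by
  rw [zagier_iff hT]
  intro x
  have h1 : x = 0 := hT.inj_reg x fun σ => reg_zero_even hT hn0 hn (h σ) x
  rw [h1]
  exact (polySpace T n E).zero_mem

/-- the only involution of a cyclic group of order `2^k` -/
lemma invol_eq {γ : F ≃ₐ[ℚ] F} (hγ : IsGenerator γ) {k : ℕ} (hk : 0 < k)
    (hdeg : Module.finrank ℚ F = 2 ^ k) {a : F ≃ₐ[ℚ] F} (ha : a ≠ 1) (haa : a * a = 1) :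
    a = γ ^ 2 ^ (k - 1) := by
  obtain ⟨s, rfl⟩ := exists_pow hγ a
  have hk' : 2 ^ k = 2 ^ (k - 1) * 2 := by
    rw [← pow_succ]
    congr 1
    omega
  have h1 : 2 ^ (k - 1) * 2 ∣ s * 2 := by
    rw [← hk', ← hdeg, ← orderOf_gen hγ, orderOf_dvd_iff_pow_eq_one, mul_two, pow_add]
    exact haa
  have h2 : 2 ^ (k - 1) ∣ s := Nat.dvd_of_mul_dvd_mul_right two_pos h1
  obtain ⟨t, rfl⟩ := h2
  have h0 : γ ^ (2 ^ (k - 1) * 2) = 1 := by
    rw [← hk', ← hdeg]
    exact gen_pow_card hγ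
  rcases Nat.even_or_odd' t with ⟨q, rfl | rfl⟩
  · exfalso
    refine ha ?_
    rw [← mul_assoc, pow_mul, h0, one_pow]
  · rw [mul_add, ← mul_assoc, pow_add, pow_mul, h0, one_pow, one_mul, mul_one]

/-- `n` even, cyclic CM fields of degree `2^k` -/
lemma two_power_iff (hT : T.IsKnown' n) (hn0 : 0 < n) (hn : Even n) {γ : F ≃ₐ[ℚ] F}
    (hγ : IsGenerator γ) {k : ℕ} (hdeg : Module.finrank ℚ F = 2 ^ k) (hcm : IsCM F) :
    Zagier n F ↔ ∃ σ : F →+* ℂ, ∃ α ∈ Ker n F, value n σ α ≠ 0 := by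
  obtain ⟨c, hc, hcc⟩ := hcm
  have hG : IsGalois ℚ F := hγ.1
  have hk : 0 < k := by
    rcases Nat.eq_zero_or_pos k with rfl | h
    · exfalso
      rw [pow_zero] at hdeg
      have h1 := gen_pow_card hγ
      rw [hdeg, pow_one] at h1
      obtain ⟨s, hs⟩ := exists_pow hγ c
      rw [h1, one_pow] at hs
      exact hc hs
    · exact h
  have hsq : c * c = 1 := by
    obtain ⟨σ⟩ : Nonempty (F →+* ℂ) := inferInstance
    refine AlgEquiv.ext fun x => σ.injective ?_
    have h1 : ∀ y, σ (c y) = conj σ y := fun y => RingHom.congr_fun (hcc σ) y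
    show σ (c (c x)) = σ x
    rw [h1]
    show (starRingEnd ℂ) (σ (c x)) = σ x
    rw [h1]
    exact Complex.conj_conj _
  have hcγ : c = γ ^ 2 ^ (k - 1) := invol_eq hγ hk hdeg hc hsq
  have hsub : ∀ E : IntermediateField ℚ F, E ≠ ⊤ → Zagier n E := by
    intro E hE
    refine zagier_of_real hT hn0 hn fun τ => ?_
    have hcE : c ∈ E.fixingSubgroup := by
      have hne : E.fixingSubgroup ≠ ⊥ := by
        intro hbot
        have h1 := IsGalois.fixedField_fixingSubgroup E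
        rw [hbot] at h1
        refine hE (h1.symm.trans ?_)
        rw [IntermediateField.fixedField_bot]
      have h2 : 2 ∣ Nat.card E.fixingSubgroup := by
        have h3 : Nat.card E.fixingSubgroup ∣ 2 ^ k := by
          rw [← hdeg, ← IsGalois.card_aut_eq_finrank ℚ F]
          exact Subgroup.card_subgroup_dvd_card _
        obtain ⟨r, hr, hr'⟩ := (Nat.dvd_prime_pow Nat.prime_two).1 h3
        rcases Nat.eq_zero_or_pos r with rfl | hr0
        · exfalso
          rw [pow_zero, Subgroup.card_eq_one] at hr'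
          exact hne hr'
        · rw [hr']
          exact dvd_pow_self 2 hr0.ne'
      obtain ⟨a, ha⟩ := exists_prime_orderOf_dvd_card' 2 h2
      have ha2 : a * a = 1 := by
        have := pow_orderOf_eq_one a
        rwa [ha, sq] at this
      have ha1 : a ≠ 1 := by
        rintro rfl
        rw [orderOf_one] at ha
        norm_num at ha
      have h5 : (a : F ≃ₐ[ℚ] F) = c := by
        rw [hcγ]
        refine invol_eq hγ hk hdeg (fun h => ha1 (Subtype.ext h)) (congrArg Subtype.val ha2)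
      rw [← h5]
      exact a.2
    have hfix : ∀ z : E, c (z : F) = z := fun z => (IntermediateField.mem_fixingSubgroup_iff E c).1 hcE z z.2
    refine RingHom.ext fun z => ?_
    have h6 : ∀ z : E, τ z = (ComplexEmbedding.lift F τ) (algebraMap E F z) := fun z => by
      rw [ComplexEmbedding.lift_algebraMap_apply]
    have h7 := RingHom.congr_fun (hcc (ComplexEmbedding.lift F τ)) (z : F)
    show (starRingEnd ℂ) (τ z) = τ z
    rw [h6]
    have h8 : (ComplexEmbedding.lift F τ) (c (z : F)) = (starRingEnd ℂ) ((ComplexEmbedding.lift F τ) (z : F)) := h7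
    rw [hfix] at h8
    exact h8.symm
  rw [prime_power_iff hT hn0 hγ Nat.prime_two hk hdeg
    ⟨fun ho => absurd ho (Nat.not_odd_iff_even.2 hn), fun _ => ⟨c, hc, hcc⟩⟩ hsub]
  refine exists_congr fun σ => exists_congr fun α => and_congr_right fun hα => not_congr ?_
  obtain ⟨x, hx⟩ := hT.polylog α hα
  have h9 : value n (σ.comp ((γ ^ 2 ^ (k - 1) : F ≃ₐ[ℚ] F) : F →+* F)) α = -value n σ α := by
    rw [← hcγ, hcc σ, ← hx, ← hx, hT.conj_reg, (Nat.Even.sub_odd hn0 hn odd_one).neg_one_pow]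
    ring
  rw [h9]
  constructor
  · intro h
    linarith
  · intro h
    linarith

end

end Pool.Agent.Q219.ZG
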