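import Pool.Agent.Q219.ZG.Defs

/-!
# Properties of number fields and groups
-/

set_option autoImplicit false

namespace Pool.Agent.Q219.ZG

open GonP NumberField

/-- The group `G` acts on a nonzero finite-dimensional rational vector space in such a way that only the
identity fixes a nonzero vector. -/
def ActsFreely (G : Type) [Group G] : Prop :=
  ∃ (V : Type) (_ : AddCommGroup V) (_ : Module ℚ V) (ρ : G →* Module.End ℚ V),
    FiniteDimensional ℚ V ∧ Nontrivial V ∧ ∀ g v, ρ g v = v → g = 1 ∨ v = 0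

/-- All embeddings are real. -/
def TotallyReal (F : Type) [Field F] : Prop := ∀ σ : F →+* ℂ, conj σ = σ

/-- There is an automorphism `c ≠ 1` which induces complex conjugation for all embeddings. -/
def IsCM (F : Type) [Field F] [NumberField F] : Prop :=
  ∃ c : F ≃ₐ[ℚ] F, c ≠ 1 ∧ ∀ σ : F →+* ℂ, σ.comp (c : F →+* F) = conj σ

/-- The fields to which the conjecture for `n` is reduced. -/
structure Reduced (n : ℕ) (F : Type) [Field F] [NumberField F] : Prop where
  free : ActsFreely (F ≃ₐ[ℚ] F)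
  cyclic : ∀ A : Subgroup (F ≃ₐ[ℚ] F), (∀ a ∈ A, ∀ b ∈ A, a * b = b * a) → IsCyclic A
  involution : ∀ a b : F ≃ₐ[ℚ] F, a ≠ 1 → b ≠ 1 → a * a = 1 → b * b = 1 → a = b
  odd : Odd n → ¬ IsCM F
  even : Even n → ¬ TotallyReal F
  galois_odd : IsGalois ℚ F → Odd n → TotallyReal F
  galois_even : IsGalois ℚ F → Even n → IsCM F

/-- `n` odd: `F` is totally real; `n` even: `F` is a CM field. -/
def Parity (n : ℕ) (F : Type) [Field F] [NumberField F] : Prop :=
  (Odd n → TotallyReal F) ∧ (Even n → IsCM F)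

/-- `F` is a Galois extension of `ℚ` and `γ` generates the Galois group. -/
def IsGenerator {F : Type} [Field F] [NumberField F] (γ : F ≃ₐ[ℚ] F) : Prop :=
  IsGalois ℚ F ∧ ∀ g : F ≃ₐ[ℚ] F, g ∈ Subgroup.zpowers γ

/-- The sum `Σ_(k < m) ζ^k L_n(σ(γ^k α))`, where `m = [F : ℚ]` and `ζ = exp(2πi/m)`. -/
noncomputable def charSum {F : Type} [Field F] [NumberField F] (n : ℕ) (σ : F →+* ℂ)
    (γ : F ≃ₐ[ℚ] F) (α : ZP F) : ℂ :=
  ∑ k ∈ Finset.range (Module.finrank ℚ F),
    Complex.exp (2 * Real.pi * Complex.I / (Module.finrank ℚ F : ℕ)) ^ k *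
      (value n (σ.comp ((γ ^ k : F ≃ₐ[ℚ] F) : F →+* F)) α : ℂ)

/-- `ker δ_n` contains an element whose sum does not vanish, for a generator `γ` of the Galois group
and an embedding `σ`. -/
def HasElement (n : ℕ) (F : Type) [Field F] [NumberField F] : Prop :=
  ∃ (σ : F →+* ℂ) (γ : F ≃ₐ[ℚ] F), IsGenerator γ ∧ ∃ α ∈ Ker n F, charSum n σ γ α ≠ 0

/-- The sum `Σ_g χ(g) L_n(σ(g α))` over the automorphisms `g` of `F`. -/
noncomputable def groupSum {F : Type} [Field F] [NumberField F] (n : ℕ) (σ : F →+* ℂ)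
    (χ : (F ≃ₐ[ℚ] F) →* ℂ) (α : ZP F) : ℂ :=
  ∑ g : F ≃ₐ[ℚ] F, χ g * (value n (σ.comp (g : F →+* F)) α : ℂ)

end Pool.Agent.Q219.ZG
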