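import Pool.Agent.Q219.ZG.Main
import Pool.Agent.Q219.ZG.Props

/-!
# Zagier's conjecture and Galois groups: fields of minimal degree
-/

set_option autoImplicit false

namespace Pool.Agent.Q219.ZG

open GonP NumberField

section

variable {T : KTheory} {n : ℕ}

/-- the action on a stable subspace -/
noncomputable def actU (hT : T.IsKnown' n) {F : Type} [Field F] [NumberField F]
    (U : Submodule ℚ (T.K F)) (hs : ∀ g : F ≃ₐ[ℚ] F, ∀ u ∈ U, T.map (g : F →+* F) u ∈ U) :
    (F ≃ₐ[ℚ] F) →* Module.End ℚ U where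
  toFun g := (act hT F g).restrict (hs g)
  map_one' := by
    refine LinearMap.ext fun x => Subtype.ext ?_
    show act hT F 1 x = x
    rw [map_one]
    rfl
  map_mul' g h := by
    refine LinearMap.ext fun x => Subtype.ext ?_
    show act hT F (g * h) x = act hT F g (act hT F h x)
    rw [map_mul]
    rfl

lemma actU_apply (hT : T.IsKnown' n) {F : Type} [Field F] [NumberField F]
    (U : Submodule ℚ (T.K F)) (hs : ∀ g : F ≃ₐ[ℚ] F, ∀ u ∈ U, T.map (g : F →+* F) u ∈ U)
    (g : F ≃ₐ[ℚ] F) (u : U) : (actU hT U hs g u : T.K F) = T.map (g : F →+* F) u := rfl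

lemma map_mul' (hT : T.IsKnown' n) {F : Type} [Field F] [NumberField F] (a b : F ≃ₐ[ℚ] F) (x : T.K F) :
    T.map ((a * b : F ≃ₐ[ℚ] F) : F →+* F) x = T.map (a : F →+* F) (T.map (b : F →+* F) x) := by
  show act hT F (a * b) x = act hT F a (act hT F b x)
  rw [map_mul]
  rfl

lemma map_one' (hT : T.IsKnown' n) {F : Type} [Field F] [NumberField F] (x : T.K F) :
    T.map ((1 : F ≃ₐ[ℚ] F) : F →+* F) x = x := by
  show act hT F 1 x = x
  rw [map_one]
  rfl

lemma conj_conj {F : Type} [Field F] (σ : F →+* ℂ) : conj (conj σ) = σ := by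
  refine RingHom.ext fun x => ?_
  show (starRingEnd ℂ) ((starRingEnd ℂ) (σ x)) = σ x
  rw [Complex.conj_conj]

section free

variable (hT : T.IsKnown' n) {F : Type} [Field F] [NumberField F] {U : Submodule ℚ (T.K F)}
  (hs : ∀ g : F ≃ₐ[ℚ] F, ∀ u ∈ U, T.map (g : F →+* F) u ∈ U)
  (hf : ∀ g : F ≃ₐ[ℚ] F, ∀ u ∈ U, T.map (g : F →+* F) u = u → g = 1 ∨ u = 0)

include hT hs hf

/-- an involution acts as `-1` -/
lemma invol_neg {a : F ≃ₐ[ℚ] F} (ha : a ≠ 1) (haa : a * a = 1) {u : T.K F} (hu : u ∈ U) :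
    T.map (a : F →+* F) u = -u := by
  have h1 : T.map (a : F →+* F) (u + T.map (a : F →+* F) u) = u + T.map (a : F →+* F) u := by
    rw [map_add, ← map_mul' hT, haa, map_one' hT, add_comm]
  rcases hf a _ (U.add_mem hu (hs a u hu)) h1 with h2 | h2
  · exact absurd h2 ha
  · rw [eq_neg_iff_add_eq_zero, add_comm]
    exact h2

lemma invol_unique (hne : U ≠ ⊥) (a b : F ≃ₐ[ℚ] F) (ha : a ≠ 1) (hb : b ≠ 1) (haa : a * a = 1)
    (hbb : b * b = 1) : a = b := by
  obtain ⟨u, hu, hu0⟩ := (Submodule.ne_bot_iff _).1 hne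
  have h1 : T.map ((a * b : F ≃ₐ[ℚ] F) : F →+* F) u = u := by
    rw [map_mul' hT, invol_neg hT hs hf hb hbb hu, map_neg, invol_neg hT hs hf ha haa hu, neg_neg]
  rcases hf (a * b) u hu h1 with h2 | h2
  · have h3 : a * b = b * b := by rw [h2, hbb]
    exact mul_right_cancel h3
  · exact absurd h2 hu0

/-- `n` odd: an involution which induces complex conjugation for `σ` -/
lemma reg_zero_odd (hn : Odd n) {c : F ≃ₐ[ℚ] F} (hc : c ≠ 1) {σ : F →+* ℂ}
    (hσ : σ.comp (c : F →+* F) = conj σ) {u : T.K F} (hu : u ∈ U) : T.reg σ u = 0 := by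
  have hcc : c * c = 1 := by
    refine AlgEquiv.ext fun x => σ.injective ?_
    have h1 : ∀ y, σ (c y) = conj σ y := fun y => RingHom.congr_fun hσ y
    show σ (c (c x)) = σ x
    rw [h1]
    show (starRingEnd ℂ) (σ (c x)) = σ x
    rw [h1]
    exact Complex.conj_conj _
  have h1 := hT.map_reg (c : F →+* F) σ u
  rw [hσ, hT.conj_reg, invol_neg hT hs hf hc hcc hu, map_neg, (Nat.Odd.sub_odd hn odd_one).neg_one_pow,
    one_mul] at h1
  linarith

end free

/-- `n` even: real embeddings -/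
lemma reg_zero_even (hT : T.IsKnown' n) (hn0 : 0 < n) (hn : Even n) {F : Type} [Field F] [NumberField F] {σ : F →+* ℂ}
    (hσ : conj σ = σ) (u : T.K F) : T.reg σ u = 0 := by
  have h1 := hT.conj_reg σ u
  rw [hσ, (Nat.Even.sub_odd hn0 hn odd_one).neg_one_pow] at h1
  linarith

/-- Galois fields: one embedding suffices -/
lemma eq_bot_of_galois (hT : T.IsKnown' n) {F : Type} [Field F] [NumberField F] [IsGalois ℚ F]
    {U : Submodule ℚ (T.K F)} (hs : ∀ g : F ≃ₐ[ℚ] F, ∀ u ∈ U, T.map (g : F →+* F) u ∈ U)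
    (σ : F →+* ℂ) (h : ∀ u ∈ U, T.reg σ u = 0) : U = ⊥ := by
  rw [Submodule.eq_bot_iff]
  intro u hu
  refine hT.inj_reg u fun τ => ?_
  obtain ⟨g, hg⟩ := NumberField.ComplexEmbedding.exists_comp_symm_eq_of_comp_eq (k := ℚ) σ τ
    (Subsingleton.elim _ _)
  rw [← hg]
  exact (hT.map_reg (g.symm : F →+* F) σ u).symm.trans (h _ (hs g.symm u hu))

/-- complex conjugation in a Galois group -/
lemma exists_conj {F : Type} [Field F] [NumberField F] [IsGalois ℚ F] (σ : F →+* ℂ) :
    ∃ c : F ≃ₐ[ℚ] F, σ.comp (c : F →+* F) = conj σ := by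
  obtain ⟨g, hg⟩ := NumberField.ComplexEmbedding.exists_comp_symm_eq_of_comp_eq (k := ℚ) σ (conj σ)
    (Subsingleton.elim _ _)
  exact ⟨g.symm, hg⟩

/-- a counterexample with the conjecture for its proper subfields is reduced -/
lemma reduced_of_not (hT : T.IsKnown' n) (hn0 : 0 < n) {F : Type} [Field F] [NumberField F]
    (h : ∀ E : IntermediateField ℚ F, E ≠ ⊤ → Zagier n E) (hF : ¬ Zagier n F) : Reduced n F := by
  obtain ⟨U, hs, hne, hf, -, -⟩ := free_of_not hT h hF
  obtain ⟨b, -, -⟩ := hT.borel F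
  have hfd : FiniteDimensional ℚ (T.K F) := Module.Finite.of_basis b
  have hnt : Nontrivial U := Submodule.nontrivial_iff_ne_bot.2 hne
  have hfree : ∀ g v, actU hT U hs g v = v → g = 1 ∨ v = 0 := by
    intro g v hv
    rcases hf g v v.2 (congrArg Subtype.val hv) with h1 | h1
    · exact Or.inl h1
    · exact Or.inr (Subtype.ext h1)
  have hinv := invol_unique hT hs hf hne
  have hsq : ∀ (σ : F →+* ℂ) (c : F ≃ₐ[ℚ] F), σ.comp (c : F →+* F) = conj σ → c * c = 1 := by
    intro σ c hσ
    refine AlgEquiv.ext fun x => σ.injective ?_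
    have h1 : ∀ y, σ (c y) = conj σ y := fun y => RingHom.congr_fun hσ y
    show σ (c (c x)) = σ x
    rw [h1]
    show (starRingEnd ℂ) (σ (c x)) = σ x
    rw [h1]
    exact Complex.conj_conj _
  refine ⟨⟨U, inferInstance, inferInstance, actU hT U hs, inferInstance, hnt, hfree⟩, ?_, hinv, ?_, ?_, ?_, ?_⟩
  · intro A hA
    letI : CommGroup A := { (inferInstance : Group A) with
      mul_comm := fun a b => Subtype.ext (hA a a.2 b b.2) }
    refine cyclic_of_free (B := A) (V := U) ((actU hT U hs).comp A.subtype) fun a v hav => ?_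
    rcases hfree a v hav with h1 | h1
    · exact Or.inl (Subtype.ext h1)
    · exact Or.inr h1
  · rintro hn ⟨c, hc, hσ⟩
    refine hne ((Submodule.eq_bot_iff _).2 fun u hu => hT.inj_reg u fun σ => ?_)
    exact reg_zero_odd hT hs hf hn hc (hσ σ) hu
  · intro hn hr
    exact hne ((Submodule.eq_bot_iff _).2 fun u hu => hT.inj_reg u fun σ =>
      reg_zero_even hT hn0 hn (hr σ) u)
  · intro hG hn σ
    obtain ⟨c, hc⟩ := exists_conj σ
    by_cases hc1 : c = 1
    · rw [← hc, hc1]
      rfl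
    · exact absurd (eq_bot_of_galois hT hs σ fun u hu => reg_zero_odd hT hs hf hn hc1 hc hu) hne
  · intro hG hn
    have h1 : ∀ (σ : F →+* ℂ) (c : F ≃ₐ[ℚ] F), σ.comp (c : F →+* F) = conj σ → c ≠ 1 := by
      rintro σ c hc rfl
      exact hne (eq_bot_of_galois hT hs σ fun u hu => reg_zero_even hT hn0 hn (hc.symm.trans (by rfl)) u)
    obtain ⟨σ⟩ : Nonempty (F →+* ℂ) := inferInstance
    obtain ⟨c, hc⟩ := exists_conj σ
    refine ⟨c, h1 σ c hc, fun τ => ?_⟩
    obtain ⟨c', hc'⟩ := exists_conj τ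
    rw [hinv c c' (h1 σ c hc) (h1 τ c' hc') (hsq σ c hc) (hsq τ c' hc')]
    exact hc'

/-- induction on the degree, in a class of fields which is closed under subfields -/
lemma induct (hT : T.IsKnown' n) (hn0 : 0 < n) (P : ∀ (F : Type) [Field F] [NumberField F], Prop)
    (hP : ∀ (F : Type) [Field F] [NumberField F], P F → ∀ E : IntermediateField ℚ F, P E)
    (h : ∀ (F : Type) [Field F] [NumberField F], P F →
      (∀ E : IntermediateField ℚ F, E ≠ ⊤ → Zagier n E) → Reduced n F → Zagier n F) :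
    ∀ (F : Type) [Field F] [NumberField F], P F → Zagier n F := by
  suffices H : ∀ (d : ℕ) (F : Type) [Field F] [NumberField F], Module.finrank ℚ F ≤ d → P F →
      Zagier n F from fun F _ _ hF => H _ F le_rfl hF
  intro d
  induction d with
  | zero =>
    intro F _ _ hd
    have : 0 < Module.finrank ℚ F := Module.finrank_pos
    omega
  | succ d ih =>
    intro F _ _ hd hF
    have h1 : ∀ E : IntermediateField ℚ F, E ≠ ⊤ → Zagier n E := by
      intro E hE
      refine ih E ?_ (hP F hF E)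
      have h2 : Module.finrank ℚ E < Module.finrank ℚ F := by
        refine Submodule.finrank_lt (s := Subalgebra.toSubmodule E.toSubalgebra) fun htop => hE ?_
        rw [eq_top_iff]
        intro x _
        have : x ∈ Subalgebra.toSubmodule E.toSubalgebra := by
          rw [htop]
          exact Submodule.mem_top
        exact this
      omega
    by_contra hcon
    exact hcon (h F hF h1 (reduced_of_not hT hn0 h1 hcon))

end

end Pool.Agent.Q219.ZG
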